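import Pool.Agent.W5h31.AE.AE4

/-!
Many patterns of primes `p` such that `p + 2` has no small prime factor.
-/

set_option autoImplicit false
set_option linter.unusedSectionVars false

namespace Pool.Agent.W5h31.CU

open Finset Filter Polynomial
open Pool.Agent.R498.MT Pool.Agent.R498.MP
open Pool.Agent.Y677.RSZ (rt Sys rhoT per_mod ev_log V eng_all)
open Pool.Agent.TH423.SH (PS PIj)
open Pool.Agent.W23.DC
open Pool.Agent.Y882
open Pool.Agent.Y882.PX
open Pool.Agent.Y882.KW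
open Pool.Agent.W5h31.AE

/-- the polynomial `X (X + 2)` -/
noncomputable def TP : ℤ[X] := X * (X + C 2)

theorem TP_eval (n : ℤ) : TP.eval n = n * (n + 2) := by
  unfold TP
  simp

theorem TP_ne : TP ≠ 0 := by
  intro h
  have h1 := TP_eval 1
  rw [h, eval_zero] at h1
  norm_num at h1

/-- the system given by `X (X + 2)` -/
theorem TP_sys : ∃ g : ℕ, 1 ≤ g ∧ Sys g (fun n => TP.eval n) := by
  obtain ⟨g, hg⟩ := Pool.Agent.Y677.RSZ.poly_all TP TP_ne (by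
    intro p hp
    by_cases h3 : p = 3
    · refine ⟨2, ?_⟩
      rw [TP_eval, h3]
      norm_num
    · refine ⟨1, ?_⟩
      rw [TP_eval]
      norm_num
      intro hd
      have h1 : p ∣ 3 := by exact_mod_cast hd
      exact h3 ((Nat.prime_dvd_prime_iff_eq hp Nat.prime_three).1 h1))
  exact ⟨g + 1, by omega, Pool.Agent.Y677.RSZ.Sys.mono hg (by omega)⟩

/-- `x + W i` and `x + W i + 2`, `i < 2 ^ k`, are integers in `(N, 2 N]` without prime factors below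
`N ^ ε₁`, and the primes in `[x, x + W 2 ^ k]`, apart from the `x + W i + 2`, are the
`x + W i`, `i ∈ Hs`. -/
def Pat (W k : ℕ) (ε₁ : ℝ) (Hs : Finset (Fin (2 ^ k))) (N x : ℕ) : Prop :=
  N < x ∧ x + W * 2 ^ k + 2 ≤ 2 * N ∧
  (∀ i : Fin (2 ^ k), ∀ p : ℕ, p.Prime → (p : ℤ) ∣ TP.eval ((x + W * i : ℕ) : ℤ) →
    (N : ℝ) ^ ε₁ ≤ p) ∧
  ∀ y ≤ W * 2 ^ k, (∀ i : Fin (2 ^ k), y ≠ W * (i : ℕ) + 2) →
    ((x + y).Prime ↔ ∃ i ∈ Hs, y = W * (i : ℕ))

open Classical in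
/-- **Many patterns.** -/
theorem manyT (g : ℕ) (hg1 : 1 ≤ g) (hF : Sys g (fun n => TP.eval n))
    (k m m' : ℕ) (hk : 3 * ((m' : ℝ) + 1) * 1474560 ≤ 1 / 4 * (1 / 8) * k)
    (hm : ((m : ℝ) + 1) ≤ ((m' : ℝ) + 1))
    (Q a₀ Q' : ℕ) (hq : Squarefree Q) (ha₀ : ∀ p : ℕ, p.Prime → p ∣ Q → ¬ (p : ℤ) ∣ TP.eval (a₀ : ℤ)) :
    ∃ (W b : ℕ) (ε₁ κ : ℝ), 2 ≤ W ∧ Q ∣ W ∧ b ≡ a₀ [MOD Q] ∧ b < W ∧
      (∀ p : ℕ, p.Prime → p ≤ g * 2 ^ k + 1 + Q' → p ∣ W) ∧
      (∀ p : ℕ, p.Prime → p ∣ W → ¬ (p : ℤ) ∣ TP.eval (b : ℤ)) ∧ 0 < ε₁ ∧ ε₁ ≤ 1 / 24 ∧ 0 < κ ∧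
      ∀ᶠ N : ℕ in atTop, ∃ z : ℕ, (z : ℝ) < (N : ℝ) ^ ε₁ ∧ (N : ℝ) ^ ε₁ ≤ z + 1 ∧
        0 < Vp (fun n => TP.eval n) W b z (fun i : Fin (2 ^ k) => (i : ℕ)) ∧
        1 ≤ Real.log N ^ (2 * (g * 2 ^ k) + 1) *
          Vp (fun n => TP.eval n) W b z (fun i : Fin (2 ^ k) => (i : ℕ)) ∧
        ∃ Hs : Finset (Fin (2 ^ k)), m < Hs.card ∧ ∃ A : Finset ℕ,
        κ * (N * Vp (fun n => TP.eval n) W b z (fun i : Fin (2 ^ k) => (i : ℕ))) ≤ A.card ∧
        ∀ x ∈ A, Pat W k ε₁ Hs N x ∧ x ≡ b [MOD W] := by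
  obtain ⟨W, hW0, hWsq, hWp, hgW, ε₁, c, hε, hε24, hc, hcore⟩ :=
    coreI k m m' hk (fun n => TP.eval n) g hF (fun p _ n hn => by
      show (p : ℤ) ∣ TP.eval n
      rw [TP_eval]
      exact hn.mul_right _) (Q + Q')
  have hk1 : 1 ≤ 2 ^ k := Nat.one_le_two_pow
  have hW2 : 2 ≤ W := by
    have h1 : 2 ∣ W := hWp 2 Nat.prime_two (by
      have : 1 ≤ g * 2 ^ k := Nat.mul_pos hg1 hk1
      omega)
    exact Nat.le_of_dvd hW0 h1
  have hqW : Q ∣ W := by
    rcases Nat.eq_zero_or_pos Q with h0 | h0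
    · rw [h0] at hq
      exact absurd hq not_squarefree_zero
    rw [← Nat.prod_primeFactors_of_squarefree hq]
    apply Finset.prod_primes_dvd
    · intro p hp
      exact (Nat.prime_of_mem_primeFactors hp).prime
    · intro p hp
      have hp' := Nat.prime_of_mem_primeFactors hp
      have h1 := Nat.le_of_dvd h0 (Nat.dvd_of_mem_primeFactors hp)
      exact hWp p hp' (by omega)
  obtain ⟨b, hbW, hba, hb⟩ := exbc hF W Q a₀ hW0 hWsq hqW ha₀
  obtain ⟨t, ht⟩ : ∃ t : Fin (2 ^ k) → ℕ, t = fun i : Fin (2 ^ k) => (i : ℕ) := ⟨_, rfl⟩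
  have htinj : Function.Injective t := by
    rw [ht]; exact Fin.val_injective
  have hti : ∀ i, t i = (i : ℕ) := fun i => by rw [ht]
  have hI : ((m : ℝ) + 1) * 2 ^ k ≤ ((m' : ℝ) + 1) * (univ : Finset (Fin (2 ^ k))).card := by
    rw [card_univ, Fintype.card_fin]
    push_cast
    exact mul_le_mul_of_nonneg_right hm (by positivity)
  obtain ⟨⟨Y₀, hcore1⟩, hcore2⟩ := hcore t htinj univ hI b hb
  obtain ⟨κ, hκ⟩ : ∃ κ : ℝ, κ = c / (2 * 2 ^ 2 ^ k) / W / 4 := ⟨_, rfl⟩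
  have hW0r : (0 : ℝ) < W := by exact_mod_cast hW0
  have hκ0 : 0 < κ := by rw [hκ]; positivity
  refine ⟨W, b, ε₁, κ, hW2, hqW, hba, hbW, fun p hp hpk => hWp p hp (by omega), hb, hε, hε24, hκ0, ?_⟩
  -- the other primes
  obtain ⟨E, hE⟩ : ∃ E : Finset ℕ, E = (range (W * 2 ^ k + 1)).filter
    (fun y => (∀ i : Fin (2 ^ k), W * (i : ℕ) ≠ y) ∧ ∀ i : Fin (2 ^ k), y ≠ W * (i : ℕ) + 2) := ⟨_, rfl⟩
  have hdisc : ∀ᶠ N : ℕ in atTop, ∀ y ∈ E, ∀ M L z : ℕ, Win W N M L → (z : ℝ) < (N : ℝ) ^ ε₁ →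
        0 < Vp (fun n => TP.eval n) W b z t →
        1 ≤ Real.log N ^ (2 * (g * 2 ^ k) + 1) * Vp (fun n => TP.eval n) W b z t →
        ∀ s : Finset ℕ,
        (∀ K ∈ s, K ∈ Ioc M (M + L) ∧ (W * K + (b + y)).Prime ∧
          ∀ p ∈ PS W z, ∀ i, ¬ (p : ℤ) ∣ TP.eval ((W * (K + t i) + b : ℕ) : ℤ)) →
        (s.card : ℝ) ≤ c / (2 * (E.card + 1)) * (L * Vp (fun n => TP.eval n) W b z t) := by
    rw [Finset.eventually_all]
    intro y hy
    rw [hE, mem_filter] at hy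
    obtain ⟨Y₁, hY₁⟩ := hcore2 (b + y) (by
      intro j
      show TP.eval _ ≠ 0
      rw [TP_eval]
      apply mul_ne_zero
      · rw [hti]
        push_cast
        intro h2
        apply hy.2.1 j
        have h3 : (W : ℤ) * (j : ℕ) = y := by linarith
        exact_mod_cast h3
      · rw [hti]
        push_cast
        intro h2
        apply hy.2.2 j
        have h3 : (y : ℤ) = (W : ℤ) * (j : ℕ) + 2 := by linarith
        exact_mod_cast h3) (c / (2 * (E.card + 1)))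
      (by positivity)
    filter_upwards [eventually_ge_atTop Y₁] with N hN M L z h1 h2 h3 h4 s hs
    exact hY₁ N hN M L z h1 h2 h3 h4 s hs
  filter_upwards [hdisc, numsE W 0 b Y₀ 0 0 0 (W * 2 ^ k + 2) hW2 hW0] with N hN1 hN2
  obtain ⟨n1, n2, n3, n4, n5, n6, n7, n8, n9, n10⟩ := hN2
  rw [add_zero] at n5 n9
  obtain ⟨M, hM⟩ : ∃ M : ℕ, M = N / W := ⟨_, rfl⟩
  obtain ⟨L, hL⟩ : ∃ L : ℕ, L = N / (2 * W) := ⟨_, rfl⟩
  rw [← hM, ← hL] at n5
  rw [← hL] at n7 n8 n9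
  have hNr : (16 : ℝ) ≤ N := by exact_mod_cast n2
  have hN0 : (0 : ℝ) < N := by linarith
  have hN1r : (1 : ℝ) ≤ N := by linarith
  obtain ⟨z, hz⟩ : ∃ z : ℕ, z + 1 = ⌈(N : ℝ) ^ ε₁⌉₊ := by
    have : 1 ≤ ⌈(N : ℝ) ^ ε₁⌉₊ := Nat.ceil_pos.2 (by positivity)
    exact ⟨⌈(N : ℝ) ^ ε₁⌉₊ - 1, by omega⟩
  have hz1 : (z : ℝ) < (N : ℝ) ^ ε₁ := by
    have h1 := Nat.ceil_lt_add_one (show 0 ≤ (N : ℝ) ^ ε₁ by positivity)
    rw [← hz] at h1
    push_cast at h1
    linarith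
  have hz2 : (N : ℝ) ^ ε₁ ≤ z + 1 := by
    have h1 := Nat.le_ceil ((N : ℝ) ^ ε₁)
    rw [← hz] at h1
    push_cast at h1
    exact h1
  obtain ⟨hgd, hV0, hV1⟩ := hcore1 N n1 M L z n5 hz1 hz2
  have hWL1 : 1 ≤ W * L := by
    have h1 : (1 : ℝ) ≤ ((W * L : ℕ) : ℝ) := le_trans (Real.one_le_rpow hN1r (by norm_num)) n7
    exact_mod_cast h1
  have hL1 : 1 ≤ L := by
    rcases Nat.eq_zero_or_pos L with h | h
    · rw [h, mul_zero] at hWL1
      omega
    · exact h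
  have hLr : (0 : ℝ) < L := by exact_mod_cast hL1
  obtain ⟨Hs, A, hHs, hA1, hA2⟩ := manyI (fun n => TP.eval n) W b M L z N k m
    0 ε₁ c (Vp (fun n => TP.eval n) W b z t) t univ E (fun y => b + y) hc hV0
    hLr hz1 hgd (fun y hy s hs => hN1 y hy M L z n5 hz1 hV0 hV1 s hs)
  rw [univ_inter] at hHs
  have hWM : W * M ≤ N := by rw [hM]; exact Nat.mul_div_le _ _
  have hWM1 : N < W * (M + 1) := by
    rw [hM]
    exact Nat.lt_mul_div_succ N hW0
  have hWM2 : W * (M + 1) = W * M + W := by ring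
  have hWML : W * (M + L) = W * M + W * L := by ring
  have hinj : Function.Injective (fun K => W * K + b) := by
    intro K K' hKK
    have h1 : W * K + b = W * K' + b := hKK
    have h2 : W * K = W * K' := by omega
    exact Nat.eq_of_mul_eq_mul_left hW0 h2
  have hcard : (A.image (fun K => W * K + b)).card = A.card := card_image_of_injective _ hinj
  refine ⟨z, hz1, hz2, by rw [← ht]; exact hV0, by rw [← ht]; exact hV1, Hs, hHs,
    A.image (fun K => W * K + b), ?_, ?_⟩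
  · rw [hcard, ← ht]
    have h4 : N < 2 * W * L + 2 * W := by
      have := Nat.lt_mul_div_succ N (show 0 < 2 * W by omega)
      rw [Nat.mul_add, Nat.mul_one, ← hL] at this
      exact this
    have h5 : N ≤ 4 * (W * L) := by
      have h6 : 2 * W * L = 2 * (W * L) := by ring
      have h7 : W ≤ W * L := Nat.le_mul_of_pos_right W hL1
      omega
    have h8 : (N : ℝ) ≤ 4 * (W * L) := by exact_mod_cast h5
    have hcp : 0 < c / (2 * 2 ^ 2 ^ k) := by positivity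
    calc κ * (N * Vp (fun n => TP.eval n) W b z t) ≤
          κ * ((4 * (W * L)) * Vp (fun n => TP.eval n) W b z t) := by gcongr
      _ = c / (2 * 2 ^ 2 ^ k) * (L * Vp (fun n => TP.eval n) W b z t) := by
        rw [hκ]
        field_simp
      _ ≤ _ := hA1
  · intro x hx
    rw [mem_image] at hx
    obtain ⟨K, hK, rfl⟩ := hx
    obtain ⟨g1, g2, g3, g4⟩ := hA2 K hK
    have h1 := g1
    rw [mem_Ioc] at h1
    have h2 : W * (M + 1) ≤ W * K := Nat.mul_le_mul_left _ (by omega)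
    have h3 : W * K ≤ W * (M + L) := Nat.mul_le_mul_left _ h1.2
    have e : ∀ i : Fin (2 ^ k), W * K + b + W * (i : ℕ) = W * (K + t i) + b := by
      intro i
      rw [hti]
      ring
    refine ⟨⟨by omega, by omega, ?_, ?_⟩, ?_⟩
    · intro i p hp hpd
      rw [e i] at hpd
      by_contra hcon
      push Not at hcon
      exact g2 p hp hcon i hpd
    · intro y hy hyi
      constructor
      · intro hpr
        by_cases hyE : y ∈ E
        · exfalso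
          apply g4 y hyE
          have e2 : W * K + (b + y) = W * K + b + y := by ring
          show (W * K + (b + y)).Prime
          rw [e2]
          exact hpr
        · rw [hE, mem_filter] at hyE
          push Not at hyE
          obtain ⟨i, hi⟩ : ∃ i : Fin (2 ^ k), W * (i : ℕ) = y := by
            by_contra hno
            push Not at hno
            obtain ⟨i, hi⟩ := hyE (mem_range.2 (by omega)) hno
            exact hyi i hi
          refine ⟨i, ?_, hi.symm⟩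
          apply (g3 i).1
          rw [← e i, hi]
          exact hpr
      · rintro ⟨i, hi, rfl⟩
        rw [e i]
        exact (g3 i).2 hi
    · have : W * K ≡ 0 [MOD W] := (Nat.modEq_zero_iff_dvd).2 (Dvd.intro K rfl)
      simpa using this.add_right b

end Pool.Agent.W5h31.CU
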