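import Pool.Agent.W5h31.CU.CU1
import Pool.Agent.Y677.RSZ.Mer

/-!
Upper bounds for the number of arguments without small prime factors in an interval.
-/

set_option autoImplicit false
set_option linter.unusedSectionVars false

namespace Pool.Agent.W5h31.CU

open Finset Filter Polynomial
open Pool.Agent.R498.MT Pool.Agent.R498.MP
open Pool.Agent.Y677.RSZ (rt Sys rhoT per_mod ev_log V eng_all)
open Pool.Agent.TH423.SH (PS PIj)

/-- comparison of the sieve products -/
theorem Vp_cmp (g m : ℕ) (A : ℝ) (hA : 1 ≤ A) : ∃ c : ℝ, 0 < c ∧ ∀ (F : ℤ → ℤ), Sys g F →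
    ∀ (W b z' z : ℕ) (t : Fin m → ℕ), (∀ p : ℕ, p.Prime → p ≤ g * m + 1 → p ∣ W) →
    2 * (g * m) + 2 ≤ z' → z' ≤ z → Real.log z ≤ A * Real.log z' →
    c * Vp F W b z' t ≤ Vp F W b z t := by
  classical
  obtain ⟨c, hc, H⟩ := Pool.Agent.Y677.RSZ.mer (g * m) A hA
  refine ⟨c, hc, fun F hF W b z' z t hW hz' hzz hlog => ?_⟩
  have h1 := H z' z hz' hzz hlog
  have hsub : PS W z' ⊆ PS W z := by
    intro p hp
    unfold PS at hp ⊢
    rw [mem_filter, mem_Icc] at hp ⊢
    exact ⟨⟨hp.1.1, hp.1.2.trans hzz⟩, hp.2⟩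
  have hsub2 : PS W z \ PS W z' ⊆ (Ioc z' z).filter Nat.Prime := by
    intro p hp
    obtain ⟨hp1, hp2⟩ := Finset.mem_sdiff.1 hp
    unfold PS at hp1 hp2
    rw [mem_filter, mem_Icc] at hp1 hp2
    rw [mem_filter, mem_Ioc]
    refine ⟨⟨?_, hp1.1.2⟩, hp1.2.1⟩
    by_contra hcon
    exact hp2 ⟨⟨hp1.1.1, not_lt.1 hcon⟩, hp1.2⟩
  have hfac : ∀ p ∈ (Ioc z' z).filter Nat.Prime, 0 ≤ 1 - ((g * m : ℕ) : ℝ) / p ∧
      1 - ((g * m : ℕ) : ℝ) / p ≤ 1 := by
    intro p hp
    rw [mem_filter, mem_Ioc] at hp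
    have h2 : g * m ≤ p := by omega
    have h3 : ((g * m : ℕ) : ℝ) ≤ p := by exact_mod_cast h2
    have h4 : (0 : ℝ) < p := by exact_mod_cast hp.2.pos
    have h5 : ((g * m : ℕ) : ℝ) / p ≤ 1 := (div_le_one h4).2 h3
    have h6 : 0 ≤ ((g * m : ℕ) : ℝ) / p := by positivity
    constructor <;> linarith
  have hrho : ∀ p ∈ PS W z, 1 - ((g * m : ℕ) : ℝ) / p ≤ 1 - (rhoT F W b t p : ℝ) / p ∧
      0 ≤ 1 - (rhoT F W b t p : ℝ) / p := by
    intro p hp
    unfold PS at hp
    rw [mem_filter, mem_Icc] at hp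
    have h3 := hp.2.1
    have h4 := hp.2.2
    have h5 : rhoT F W b t p ≤ g * m := by
      have := Pool.Agent.Y833.RSZ.rhoT_le h3 (hF.per p h3) W b t h4
      refine this.trans ?_
      rw [mul_comm g m]
      exact Nat.mul_le_mul_left _ (hF.root p h3).1
    have h6 : g * m + 1 < p := by
      by_contra hcon
      exact h4 (hW p h3 (not_lt.1 hcon))
    have h7 : ((rhoT F W b t p : ℕ) : ℝ) ≤ ((g * m : ℕ) : ℝ) := by exact_mod_cast h5
    have h8 : ((g * m : ℕ) : ℝ) ≤ p := by exact_mod_cast (by omega : g * m ≤ p)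
    have h9 : (0 : ℝ) < p := by exact_mod_cast h3.pos
    constructor
    · have := div_le_div_of_nonneg_right h7 h9.le
      linarith
    · have := (div_le_one h9).2 (h7.trans h8)
      linarith
  unfold Vp
  rw [← prod_sdiff hsub]
  have h2 : c ≤ ∏ p ∈ PS W z \ PS W z', (1 - (rhoT F W b t p : ℝ) / p) := by
    refine h1.trans ?_
    calc ∏ p ∈ (Ioc z' z).filter Nat.Prime, (1 - ((g * m : ℕ) : ℝ) / p) ≤
        ∏ p ∈ PS W z \ PS W z', (1 - ((g * m : ℕ) : ℝ) / p) := by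
          rw [← prod_sdiff hsub2]
          apply mul_le_of_le_one_left
          · exact prod_nonneg fun p hp => (hfac p (hsub2 hp)).1
          · apply prod_le_one
            · intro p hp
              exact (hfac p (Finset.mem_sdiff.1 hp).1).1
            · intro p hp
              exact (hfac p (Finset.mem_sdiff.1 hp).1).2
      _ ≤ _ := by
          apply Finset.prod_le_prod
          · intro p hp
            exact (hfac p (hsub2 hp)).1
          · intro p hp
            exact (hrho p (Finset.mem_sdiff.1 hp).1).1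
  apply mul_le_mul_of_nonneg_right h2
  exact prod_nonneg fun p hp => (hrho p (hsub hp)).2

open Classical in
/-- the upper bound in an interval -/
theorem upx : ∃ C : ℕ, 1 ≤ C ∧ ∀ g m W : ℕ, 1 ≤ W →
    (∀ p : ℕ, p.Prime → p ≤ C * (g * m + 1) → p ∣ W) → ∀ F : ℤ → ℤ, Sys g F →
    ∀ (t : Fin m → ℕ) (b J z Y H : ℕ), b < W → W ≤ Y → z ≤ 2 ^ 2 ^ J → 0 ≤ Vp F W b z t → ∀ B : Finset ℕ,
    (∀ x ∈ B, x ∈ Ioc Y (Y + H) ∧ x ≡ b [MOD W] ∧
      ∀ p : ℕ, p.Prime → p ≤ z → ∀ i, ¬ (p : ℤ) ∣ F ((x + W * t i : ℕ) : ℤ)) →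
    (B.card : ℝ) ≤ 2 * (((H / W + 3 : ℕ) : ℝ) * Vp F W b z t) +
      ((2 : ℝ) ^ 2 ^ J) ^ (C * (C * (g * m + 1))) := by
  obtain ⟨C, hC1, hC⟩ := c1z
  refine ⟨C, hC1, fun g m W hW hWp F hF t b J z Y H hbW hWY hz hV B hB => ?_⟩
  have hx : ∀ x ∈ B, W * (x / W) + b = x := by
    intro x hx
    have h2 := (hB x hx).2.1
    have h1 : x % W = b := by
      have h2' : x % W = b % W := h2
      rw [h2', Nat.mod_eq_of_lt hbW]
    have h3 := Nat.div_add_mod x W
    omega
  have hinj : Set.InjOn (fun x => x / W) (B : Set ℕ) := by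
    intro x hx' y hy' hxy
    have h1 := hx x hx'
    have h2 := hx y hy'
    simp only at hxy
    rw [← h1, ← h2, hxy]
  set M := Y / W - 1 with hM
  set L := H / W + 3 with hL
  set s := (Ioc M (M + L)).filter (fun K => K % 1 = 0 % 1 ∧
        ∀ p ∈ PS W z, ∀ i, ¬ (p : ℤ) ∣ F ((W * (K + t i) + b : ℕ) : ℤ)) with hs
  have h1 := hC g m (C * (g * m + 1)) W le_rfl hW hWp F hF t b J z 1 0 M L hz le_rfl
    (by
      intro p hp hd
      unfold PS at hp
      rw [mem_filter] at hp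
      exact hp.2.1.one_lt.ne' (Nat.dvd_one.1 hd)) s (by
      intro K
      rw [hs, mem_filter])
  have hsub : B.image (fun x => x / W) ⊆ s := by
    intro K hK
    rw [mem_image] at hK
    obtain ⟨x, hxB, rfl⟩ := hK
    obtain ⟨g1, g2, g3⟩ := hB x hxB
    rw [mem_Ioc] at g1
    rw [hs, mem_filter, mem_Ioc]
    have h4 : 1 ≤ Y / W := (Nat.one_le_div_iff (by omega)).2 hWY
    have h5 : Y / W ≤ x / W := Nat.div_le_div_right g1.1.le
    have h6 : x / W ≤ (Y + H) / W := Nat.div_le_div_right g1.2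
    have h7 : (Y + H) / W ≤ Y / W + H / W + 1 := by
      have e1 := Nat.div_add_mod Y W
      have e2 := Nat.div_add_mod H W
      have e3 := Nat.mod_lt Y (show W > 0 by omega)
      have e4 := Nat.mod_lt H (show W > 0 by omega)
      have e5 : (Y + H) / W < Y / W + H / W + 2 := by
        rw [Nat.div_lt_iff_lt_mul (by omega)]
        have : (Y / W + H / W + 2) * W = W * (Y / W) + W * (H / W) + 2 * W := by ring
        rw [this]
        omega
      omega
    refine ⟨⟨by omega, by omega⟩, by simp [Nat.mod_one], ?_⟩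
    intro p hp i
    unfold PS at hp
    rw [mem_filter, mem_Icc] at hp
    have h8 := g3 p hp.2.1 hp.1.2 i
    have e : W * (x / W + t i) + b = x + W * t i := by
      have := hx x hxB
      have e' : W * (x / W + t i) + b = W * (x / W) + b + W * t i := by ring
      rw [e', this]
    rw [e]
    exact h8
  have hcard : (B.card : ℝ) ≤ s.card := by
    rw [← card_image_of_injOn hinj]
    exact_mod_cast card_le_card hsub
  have h2 : ((1 : ℝ) / 2) ^ (C * (g * m + 1)) ≤ 1 := pow_le_one₀ (by norm_num) (by norm_num)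
  have h3 := (abs_le.1 h1).2
  have h4 : (L : ℝ) / ((1 : ℕ) : ℝ) * ∏ p ∈ PS W z, (1 - (rhoT F W b t p : ℝ) / p) =
      (L : ℝ) * Vp F W b z t := by
    unfold Vp
    simp
  rw [h4] at h3
  have h5 : 0 ≤ (L : ℝ) * Vp F W b z t := mul_nonneg (Nat.cast_nonneg _) hV
  have h6 : ((1 : ℝ) / 2) ^ (C * (g * m + 1)) * ((L : ℝ) * Vp F W b z t) ≤ (L : ℝ) * Vp F W b z t :=
    mul_le_of_le_one_left h5 h2
  linarith

end Pool.Agent.W5h31.CU
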