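import Mathlib
import Pool.Agent.Y677.RSZ.Eng4

/-!
Numerical lemmas: intervals between consecutive powers.
-/

set_option autoImplicit false
set_option linter.unusedSectionVars false

namespace Pool.Agent.W5h31.CU

open Finset Filter
open Pool.Agent.Y677.RSZ (ev_log)

/-- the scale -/
noncomputable def NT (u : ℝ) (T : ℕ) : ℕ := ⌊(T : ℝ) ^ u / 2⌋₊

/-- the length of the intervals -/
noncomputable def HT (u : ℝ) (T : ℕ) : ℕ := ⌈u * (T : ℝ) ^ (u - 1)⌉₊ + 1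

/-- the index of the interval of `x` -/
noncomputable def idx (u : ℝ) (x : ℕ) : ℕ := ⌈(x : ℝ) ^ (1 / u)⌉₊ - 1

theorem idx_spec {u : ℝ} (hu : 1 < u) {x : ℕ} (hx : 1 ≤ x) :
    ((idx u x : ℕ) : ℝ) ^ u < x ∧ (x : ℝ) ≤ ((idx u x : ℕ) + 1 : ℝ) ^ u := by
  have hu0 : 0 < u := by linarith
  have hx1 : (1 : ℝ) ≤ x := by exact_mod_cast hx
  have hx0 : (0 : ℝ) < x := by linarith
  have hy : 0 < (x : ℝ) ^ (1 / u) := Real.rpow_pos_of_pos hx0 _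
  have hc : 1 ≤ ⌈(x : ℝ) ^ (1 / u)⌉₊ := Nat.ceil_pos.2 hy
  have e : ((idx u x : ℕ) : ℝ) + 1 = (⌈(x : ℝ) ^ (1 / u)⌉₊ : ℝ) := by
    unfold idx
    rw [Nat.cast_sub hc]
    push_cast
    ring
  have h1 := Nat.ceil_lt_add_one hy.le
  have h2 := Nat.le_ceil ((x : ℝ) ^ (1 / u))
  have h3 : ((x : ℝ) ^ (1 / u)) ^ u = x := by
    rw [← Real.rpow_mul hx0.le, one_div, inv_mul_cancel₀ hu0.ne', Real.rpow_one]
  constructor
  · have h4 : ((idx u x : ℕ) : ℝ) < (x : ℝ) ^ (1 / u) := by linarith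
    calc ((idx u x : ℕ) : ℝ) ^ u < ((x : ℝ) ^ (1 / u)) ^ u :=
          Real.rpow_lt_rpow (Nat.cast_nonneg _) h4 hu0
      _ = x := h3
  · rw [e]
    calc (x : ℝ) = ((x : ℝ) ^ (1 / u)) ^ u := h3.symm
      _ ≤ _ := Real.rpow_le_rpow hy.le h2 hu0.le

/-- the length -/
theorem len {u : ℝ} (hu : 1 < u) {n T : ℕ} (hn : n < T) :
    ((n : ℝ) + 1) ^ u ≤ (n : ℝ) ^ u + u * (T : ℝ) ^ (u - 1) := by
  have hu0 : 0 < u := by linarith
  have h0 : (0 : ℝ) ≤ n := Nat.cast_nonneg n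
  have hn1 : (0 : ℝ) < (n : ℝ) + 1 := by linarith
  have h1 : (-1 : ℝ) ≤ -(1 / ((n : ℝ) + 1)) := by
    have : 1 / ((n : ℝ) + 1) ≤ 1 := (div_le_one hn1).2 (by linarith)
    linarith
  have h2 := one_add_mul_self_le_rpow_one_add h1 hu.le
  have h3 : (1 : ℝ) + -(1 / ((n : ℝ) + 1)) = n / ((n : ℝ) + 1) := by
    field_simp
    ring
  rw [h3, Real.div_rpow h0 hn1.le] at h2
  have h4 : 0 < ((n : ℝ) + 1) ^ u := Real.rpow_pos_of_pos hn1 _
  rw [le_div_iff₀ h4] at h2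
  have h5 : ((n : ℝ) + 1) ^ u = ((n : ℝ) + 1) ^ (u - 1) * ((n : ℝ) + 1) := by
    rw [← Real.rpow_add_one hn1.ne']
    congr 1
    ring
  have h6 : (1 + u * -(1 / ((n : ℝ) + 1))) * ((n : ℝ) + 1) ^ u =
      ((n : ℝ) + 1) ^ u - u * ((n : ℝ) + 1) ^ (u - 1) := by
    rw [h5]
    field_simp
    ring
  rw [h6] at h2
  have h7 : ((n : ℝ) + 1) ^ (u - 1) ≤ (T : ℝ) ^ (u - 1) := by
    apply Real.rpow_le_rpow hn1.le _ (by linarith)
    have : n + 1 ≤ T := hn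
    exact_mod_cast this
  have h8 := mul_le_mul_of_nonneg_left h7 hu0.le
  linarith

/-- the bounds for the scale -/
theorem NT_bd {u : ℝ} (hu : 1 < u) : ∀ᶠ T : ℕ in atTop,
    (T : ℝ) ^ u / 4 ≤ (NT u T : ℝ) ∧ 2 * (NT u T : ℝ) ≤ (T : ℝ) ^ u := by
  have hu0 : 0 < u := by linarith
  filter_upwards [(tendsto_natCast_atTop_atTop (R := ℝ)).eventually
    ((tendsto_rpow_atTop hu0).eventually_ge_atTop 4)] with T hT
  unfold NT
  have h1 := Nat.lt_floor_add_one ((T : ℝ) ^ u / 2)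
  have h2 := Nat.floor_le (show 0 ≤ (T : ℝ) ^ u / 2 by positivity)
  constructor <;> linarith

theorem NT_tendsto {u : ℝ} (hu : 1 < u) : Tendsto (NT u) atTop atTop := by
  have hu0 : 0 < u := by linarith
  have h1 : Tendsto (fun T : ℕ => (T : ℝ) ^ u / 2) atTop atTop :=
    ((tendsto_rpow_atTop hu0).comp (tendsto_natCast_atTop_atTop (R := ℝ))).atTop_div_const (by norm_num)
  exact tendsto_nat_floor_atTop.comp h1

/-- the index of an element of the scale -/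
theorem idx_bd {u : ℝ} (hu : 1 < u) : ∀ᶠ T : ℕ in atTop, ∀ x : ℕ, NT u T < x → x ≤ 2 * NT u T →
    idx u x < T ∧ T ≤ 8 * idx u x := by
  have hu0 : 0 < u := by linarith
  filter_upwards [NT_bd hu, eventually_ge_atTop 8] with T hT hT8 x hx1 hx2
  obtain ⟨h1, h2⟩ := hT
  have hT8r : (8 : ℝ) ≤ T := by exact_mod_cast hT8
  have hx : 1 ≤ x := by omega
  obtain ⟨h3, h4⟩ := idx_spec hu hx
  constructor
  · have h5 : (x : ℝ) ≤ 2 * (NT u T : ℝ) := by exact_mod_cast hx2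
    have h6 : ((idx u x : ℕ) : ℝ) ^ u < (T : ℝ) ^ u := by linarith
    have h7 := (Real.rpow_lt_rpow_iff (Nat.cast_nonneg _) (Nat.cast_nonneg _) hu0).1 h6
    exact_mod_cast h7
  · have h5 : (NT u T : ℝ) ≤ x := by exact_mod_cast hx1.le
    have h6 : ((T : ℝ) / 4) ^ u ≤ (T : ℝ) ^ u / 4 := by
      rw [Real.div_rpow (by linarith) (by norm_num)]
      apply div_le_div_of_nonneg_left (by positivity) (by norm_num)
      calc (4 : ℝ) = 4 ^ (1 : ℝ) := (Real.rpow_one 4).symm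
        _ ≤ 4 ^ u := Real.rpow_le_rpow_of_exponent_le (by norm_num) hu.le
    have h7 : ((T : ℝ) / 4) ^ u ≤ ((idx u x : ℕ) + 1 : ℝ) ^ u := by linarith
    have h8 := (Real.rpow_le_rpow_iff (by linarith) (by positivity) hu0).1 h7
    have h9 : (T : ℝ) ≤ 8 * (idx u x : ℕ) := by linarith
    exact_mod_cast h9

/-- the numerical conditions -/
theorem numsT (u ε₁ ε' C₁ : ℝ) (E K gm W : ℕ) (hu : 1 < u) (hε₁ : 0 < ε₁) (hε₁' : ε₁ ≤ 1) (hε' : 0 < ε')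
    (h1 : 2 * ε' ≤ ε₁) (h2 : 8 * ε' ≤ u - 1) (h3 : 8 * ε' * E ≤ u - 1) (hC₁ : 0 < C₁) :
    ∀ᶠ T : ℕ in atTop, 8 ≤ T ∧ 8 * W ≤ T ∧
      (T : ℝ) ^ ε' ≤ (NT u T : ℝ) ^ ε₁ - 1 ∧ (T : ℝ) ^ (ε' / 2) ≤ ((⌊(T : ℝ) ^ ε'⌋₊ : ℕ) : ℝ) ∧
      2 * gm + 2 ≤ ⌊(T : ℝ) ^ ε'⌋₊ ∧
      C₁ * (Real.log (NT u T)) ^ K ≤ (T : ℝ) ^ (u - 1) ∧
      ((T : ℝ) ^ (2 * ε')) ^ E * (Real.log (NT u T)) ^ K ≤ (T : ℝ) ^ (u - 1) ∧
      1 ≤ Real.log (NT u T) ∧ Real.log (NT u T) ≤ u * Real.log T := by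
  have hu0 : 0 < u := by linarith
  have hcast := tendsto_natCast_atTop_atTop (R := ℝ)
  have ha : 0 < (u - 1) / 4 := by linarith
  filter_upwards [NT_bd hu, eventually_ge_atTop 8, eventually_ge_atTop (8 * W),
    hcast.eventually ((tendsto_rpow_atTop hε').eventually_ge_atTop ((2 * gm + 3 : ℕ) : ℝ)),
    hcast.eventually ((tendsto_rpow_atTop (half_pos hε')).eventually_ge_atTop 8),
    ev_log K (C₁ * u ^ K) ((u - 1) / 4) ha, ev_log K (u ^ K) ((u - 1) / 4) ha,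
    (NT_tendsto hu).eventually_ge_atTop 3] with T hT hT8 hTW hz hz2 hl1 hl2 hN3
  obtain ⟨hT1, hT2⟩ := hT
  have hT8r : (8 : ℝ) ≤ T := by exact_mod_cast hT8
  have hT0 : (0 : ℝ) < T := by linarith
  have hT1r : (1 : ℝ) ≤ T := by linarith
  have hN3r : (3 : ℝ) ≤ (NT u T : ℝ) := by exact_mod_cast hN3
  have hlogN : Real.log (NT u T) ≤ u * Real.log T := by
    rw [← Real.log_rpow hT0]
    apply Real.log_le_log (by linarith)
    linarith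
  have hlogN1 : 1 ≤ Real.log (NT u T) := by
    rw [Real.le_log_iff_exp_le (by linarith)]
    have := Real.exp_one_lt_d9
    linarith
  have hlogT : 0 ≤ Real.log T := Real.log_nonneg hT1r
  have hpowK : (Real.log (NT u T)) ^ K ≤ u ^ K * Real.log T ^ K := by
    rw [← mul_pow]
    exact pow_le_pow_left₀ (by linarith) hlogN K
  have hsplit : (T : ℝ) ^ ε' = (T : ℝ) ^ (ε' / 2) * (T : ℝ) ^ (ε' / 2) := by
    rw [← Real.rpow_add hT0]
    congr 1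
    ring
  have hfl := Nat.lt_floor_add_one ((T : ℝ) ^ ε')
  have hE : (T : ℝ) ^ ((u - 1) / 4) ≤ (T : ℝ) ^ (u - 1) :=
    Real.rpow_le_rpow_of_exponent_le hT1r (by linarith)
  refine ⟨hT8, hTW, ?_, ?_, ?_, ?_, ?_, hlogN1, hlogN⟩
  · have g1 : ((T : ℝ) ^ u / 4) ^ ε₁ ≤ (NT u T : ℝ) ^ ε₁ :=
      Real.rpow_le_rpow (by positivity) hT1 hε₁.le
    have g2 : ((T : ℝ) ^ u / 4) ^ ε₁ = (T : ℝ) ^ (u * ε₁) / 4 ^ ε₁ := by
      rw [Real.div_rpow (by positivity) (by norm_num), ← Real.rpow_mul hT0.le]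
    have g3 : (4 : ℝ) ^ ε₁ ≤ 4 := by
      calc (4 : ℝ) ^ ε₁ ≤ 4 ^ (1 : ℝ) := Real.rpow_le_rpow_of_exponent_le (by norm_num) hε₁'
        _ = 4 := Real.rpow_one 4
    have g4 : (T : ℝ) ^ (ε' + ε') ≤ (T : ℝ) ^ (u * ε₁) :=
      Real.rpow_le_rpow_of_exponent_le hT1r (by nlinarith)
    rw [Real.rpow_add hT0] at g4
    have g5 : (T : ℝ) ^ (u * ε₁) / 4 ≤ (T : ℝ) ^ (u * ε₁) / 4 ^ ε₁ :=
      div_le_div_of_nonneg_left (by positivity) (by positivity) g3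
    have g6 : (8 : ℝ) ≤ (T : ℝ) ^ ε' := by
      rw [hsplit]
      nlinarith
    rw [g2] at g1
    nlinarith
  · have : (T : ℝ) ^ (ε' / 2) ≤ (T : ℝ) ^ ε' - 1 := by
      rw [hsplit]
      nlinarith
    linarith
  · have : ((2 * gm + 3 : ℕ) : ℝ) < ((⌊(T : ℝ) ^ ε'⌋₊ + 1 : ℕ) : ℝ) := by
      push_cast
      push_cast at hz
      linarith
    have h4 : 2 * gm + 3 < ⌊(T : ℝ) ^ ε'⌋₊ + 1 := by exact_mod_cast this
    omega
  · calc C₁ * (Real.log (NT u T)) ^ K ≤ C₁ * (u ^ K * Real.log T ^ K) :=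
          mul_le_mul_of_nonneg_left hpowK hC₁.le
      _ = C₁ * u ^ K * Real.log T ^ K := by ring
      _ ≤ _ := hl1.trans hE
  · have g1 : ((T : ℝ) ^ (2 * ε')) ^ E ≤ (T : ℝ) ^ ((u - 1) / 4) := by
      rw [← Real.rpow_natCast, ← Real.rpow_mul hT0.le]
      apply Real.rpow_le_rpow_of_exponent_le hT1r
      linarith
    calc ((T : ℝ) ^ (2 * ε')) ^ E * (Real.log (NT u T)) ^ K ≤
          (T : ℝ) ^ ((u - 1) / 4) * (T : ℝ) ^ ((u - 1) / 4) := by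
          apply mul_le_mul g1 (hpowK.trans hl2) (by positivity) (by positivity)
      _ = (T : ℝ) ^ ((u - 1) / 2) := by
          rw [← Real.rpow_add hT0]
          congr 1
          ring
      _ ≤ _ := Real.rpow_le_rpow_of_exponent_le hT1r (by linarith)

end Pool.Agent.W5h31.CU
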