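import Pool.Agent.W5h31.CU.CU2
import Pool.Agent.W5h31.CU.CU3
import Pool.Agent.Y882.Core

/-!
A positive proportion of the intervals between consecutive powers contain many patterns.
-/

set_option autoImplicit false
set_option linter.unusedSectionVars false

namespace Pool.Agent.W5h31.CU

open Finset Filter Polynomial
open Pool.Agent.R498.MT Pool.Agent.R498.MP
open Pool.Agent.Y677.RSZ (rt Sys rhoT per_mod ev_log V eng_all)
open Pool.Agent.TH423.SH (PS PIj)

open Classical in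
theorem pigeon {A : Finset ℕ} {f : ℕ → ℕ} {T : ℕ} (hT : 0 < T) (hf : ∀ x ∈ A, f x ∈ range T)
    (U α : ℝ) (hU : 0 < U) (hα : 0 ≤ α) (h1 : ∀ n, ((A.filter (fun x => f x = n)).card : ℝ) ≤ U)
    (h2 : 2 * α ≤ A.card) :
    α / U ≤ (((range T).filter (fun n => α / T ≤ ((A.filter (fun x => f x = n)).card : ℝ))).card : ℝ) := by
  have h3 : (A.card : ℝ) = ∑ n ∈ range T, ((A.filter (fun x => f x = n)).card : ℝ) := by
    rw [card_eq_sum_card_fiberwise hf]
    push_cast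
    rfl
  set G := (range T).filter (fun n => α / T ≤ ((A.filter (fun x => f x = n)).card : ℝ)) with hG
  have hT0 : (0 : ℝ) < T := by exact_mod_cast hT
  have h4 : ∑ n ∈ range T, ((A.filter (fun x => f x = n)).card : ℝ) ≤ G.card * U + α := by
    rw [← sum_filter_add_sum_filter_not (range T) (fun n => α / T ≤ ((A.filter (fun x => f x = n)).card : ℝ)),
      ← hG]
    apply add_le_add
    · calc ∑ n ∈ G, ((A.filter (fun x => f x = n)).card : ℝ) ≤ ∑ _n ∈ G, U :=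
            sum_le_sum fun n _ => h1 n
        _ = G.card * U := by rw [sum_const, nsmul_eq_mul]
    · calc ∑ n ∈ (range T).filter (fun n => ¬ α / T ≤ ((A.filter (fun x => f x = n)).card : ℝ)),
            ((A.filter (fun x => f x = n)).card : ℝ) ≤
            ∑ _n ∈ (range T).filter (fun n => ¬ α / T ≤ ((A.filter (fun x => f x = n)).card : ℝ)),
              α / T := by
            apply sum_le_sum
            intro n hn
            rw [mem_filter] at hn
            exact (not_le.1 hn.2).le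
        _ = ((range T).filter (fun n => ¬ α / T ≤ ((A.filter (fun x => f x = n)).card : ℝ))).card *
              (α / T) := by rw [sum_const, nsmul_eq_mul]
        _ ≤ T * (α / T) := by
            apply mul_le_mul_of_nonneg_right _ (by positivity)
            have := card_filter_le (range T) (fun n => ¬ α / T ≤ ((A.filter (fun x => f x = n)).card : ℝ))
            rw [card_range] at this
            exact_mod_cast this
        _ = α := by field_simp
  rw [div_le_iff₀ hU]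
  linarith

/-- the elements near the end of the intervals -/
theorem exceptional {u : ℝ} (hu : 1 < u) (D T : ℕ) (X : Finset ℕ)
    (hX : ∀ x ∈ X, 1 ≤ x ∧ idx u x < T ∧ ¬ ((x + D : ℕ) : ℝ) < ((idx u x : ℕ) + 1 : ℝ) ^ u) :
    X.card ≤ (D + 1) * T := by
  classical
  have h1 : X.card ≤ (D + 1) * (X.image (idx u)).card := by
    apply card_le_mul_card_image
    intro n hn
    have hsub : X.filter (fun x => idx u x = n) ⊆ Icc (⌊((n : ℝ) + 1) ^ u⌋₊ - D) ⌊((n : ℝ) + 1) ^ u⌋₊ := by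
      intro x hx
      rw [mem_filter] at hx
      obtain ⟨h1, h2, h3⟩ := hX x hx.1
      obtain ⟨h4, h5⟩ := idx_spec hu h1
      rw [hx.2] at h3 h5
      rw [not_lt] at h3
      rw [mem_Icc]
      constructor
      · have h6 : ⌊((n : ℝ) + 1) ^ u⌋₊ ≤ x + D := by
          have := (Nat.floor_le (show 0 ≤ ((n : ℝ) + 1) ^ u by positivity)).trans h3
          exact_mod_cast this
        omega
      · exact Nat.le_floor h5
    refine (card_le_card hsub).trans ?_
    rw [Nat.card_Icc]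
    omega
  refine h1.trans (Nat.mul_le_mul_left _ ?_)
  have h2 : X.image (idx u) ⊆ range T := by
    intro n hn
    rw [mem_image] at hn
    obtain ⟨x, hx, rfl⟩ := hn
    exact mem_range.2 (hX x hx).2.1
  have h3 := card_le_card h2
  rwa [card_range] at h3

open Classical in
theorem stepA (u : ℝ) (hu : 1 < u) (g : ℕ) (hg1 : 1 ≤ g) (hF : Sys g (fun n => TP.eval n))
    (k m m' : ℕ) (hk : 3 * ((m' : ℝ) + 1) * 1474560 ≤ 1 / 4 * (1 / 8) * k)
    (hm : ((m : ℝ) + 1) ≤ ((m' : ℝ) + 1))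
    (Q a₀ : ℕ) (hq : Squarefree Q) (ha₀ : ∀ p : ℕ, p.Prime → p ∣ Q → ¬ (p : ℤ) ∣ TP.eval (a₀ : ℤ)) :
    ∃ (W b : ℕ) (ε₁ c : ℝ), 2 ≤ W ∧ 3 ∣ W ∧ Q ∣ W ∧ b ≡ a₀ [MOD Q] ∧ b < W ∧
      (∀ p : ℕ, p.Prime → p ≤ g * 2 ^ k + 1 → p ∣ W) ∧
      (∀ p : ℕ, p.Prime → p ∣ W → ¬ (p : ℤ) ∣ TP.eval (b : ℤ)) ∧ 0 < ε₁ ∧ 0 < c ∧
      ∀ᶠ T : ℕ in atTop, ∃ (Hs : Finset (Fin (2 ^ k))) (v : ℝ), m < Hs.card ∧ 0 < v ∧
        1 ≤ Real.log (NT u T) ^ (2 * (g * 2 ^ k) + 1) * v ∧
        V (fun n => (PP TP W (fun i : Fin (2 ^ k) => (i : ℕ))).eval n) 1 (HT u T) ≤ v / c ∧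
        ∃ G : Finset ℕ, G ⊆ range T ∧ c * T ≤ G.card ∧ ∀ n ∈ G, T ≤ 8 * n ∧ ∃ B : Finset ℕ,
          c * ((T : ℝ) ^ (u - 1) * v) ≤ B.card ∧
          ∀ x ∈ B, Pat W k ε₁ Hs (NT u T) x ∧ x ≡ b [MOD W] ∧ (n : ℝ) ^ u < x ∧
            ((x + (W * 2 ^ k + 2) : ℕ) : ℝ) < ((n : ℝ) + 1) ^ u := by
  have hu0 : 0 < u := by linarith
  obtain ⟨C, hC1, hup⟩ := upx
  obtain ⟨W, b, ε₁, κ, hW2, hqW, hba, hbW, hWp, hb, hε, hε24, hκ, hmany⟩ :=
    manyT g hg1 hF k m m' hk hm Q a₀ (3 + C * (g * 2 ^ k + 1)) hq ha₀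
  have hW0 : 0 < W := by omega
  obtain ⟨t, ht⟩ : ∃ t : Fin (2 ^ k) → ℕ, t = fun i : Fin (2 ^ k) => (i : ℕ) := ⟨_, rfl⟩
  rw [← ht] at hmany ⊢
  obtain ⟨K, hK⟩ : ∃ K : ℕ, K = 2 * (g * 2 ^ k) + 1 := ⟨_, rfl⟩
  rw [← hK] at hmany ⊢
  obtain ⟨D, hD⟩ : ∃ D : ℕ, D = W * 2 ^ k + 2 := ⟨_, rfl⟩
  obtain ⟨E, hE⟩ : ∃ E : ℕ, E = C * (C * (g * 2 ^ k + 1)) := ⟨_, rfl⟩
  obtain ⟨ε', hε'⟩ : ∃ ε' : ℝ, ε' = min (ε₁ / 2) ((u - 1) / (8 * (E + 1))) := ⟨_, rfl⟩
  have hE0 : (0 : ℝ) ≤ E := Nat.cast_nonneg E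
  have hε'0 : 0 < ε' := by
    rw [hε']
    exact lt_min (by linarith) (div_pos (by linarith) (by positivity))
  have hε'1 : 2 * ε' ≤ ε₁ := by
    have := min_le_left (ε₁ / 2) ((u - 1) / (8 * (E + 1)))
    rw [← hε'] at this
    linarith
  have hε'2 : ε' * (8 * (E + 1)) ≤ u - 1 := by
    have := min_le_right (ε₁ / 2) ((u - 1) / (8 * (E + 1)))
    rw [← hε'] at this
    rwa [le_div_iff₀ (by positivity)] at this
  have hε'3 : 8 * ε' ≤ u - 1 := by nlinarith
  have hε'4 : 8 * ε' * E ≤ u - 1 := by nlinarith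
  obtain ⟨Y0, hJ⟩ := Pool.Agent.Y882.exJ ε' hε'0
  obtain ⟨c₂, hc₂, hcmp⟩ := Vp_cmp g (2 ^ k) (max 1 (2 * u / ε')) (le_max_left _ _)
  obtain ⟨C₃, hC₃⟩ : ∃ C₃ : ℝ, C₃ = 2 * (u + 5) / c₂ + 1 := ⟨_, rfl⟩
  have hC₃0 : 0 < C₃ := by rw [hC₃]; positivity
  obtain ⟨c, hc⟩ : ∃ c : ℝ, c = min (κ / 16) (min (κ / (16 * C₃)) c₂) := ⟨_, rfl⟩
  have hc0 : 0 < c := by
    rw [hc]
    exact lt_min (by positivity) (lt_min (by positivity) hc₂)
  have hc1 : c ≤ κ / 16 := by rw [hc]; exact min_le_left _ _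
  have hc2 : c ≤ κ / (16 * C₃) := by rw [hc]; exact (min_le_right _ _).trans (min_le_left _ _)
  have hc3 : c ≤ c₂ := by rw [hc]; exact (min_le_right _ _).trans (min_le_right _ _)
  refine ⟨W, b, ε₁, c, hW2, hWp 3 Nat.prime_three (by omega), hqW, hba, hbW,
    fun p hp hpk => hWp p hp (by omega), hb, hε, hc0, ?_⟩
  rw [← hD]
  filter_upwards [(NT_tendsto hu).eventually hmany, NT_bd hu, idx_bd hu, eventually_ge_atTop Y0,
    numsT u ε₁ ε' (8 * (D + 1) / κ) E K (g * 2 ^ k) W hu hε (by linarith) hε'0 hε'1 hε'3 hε'4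
      (by positivity)] with T hT1 hT2 hT3 hT4 hT5
  obtain ⟨z, hz1, hz2, hV0, hV1, Hs, hHs, A, hA1, hA2⟩ := hT1
  obtain ⟨n1, n2, n3, n4, n5, n6, n7, n8, n9⟩ := hT5
  obtain ⟨J, hJ1, hJ2⟩ := hJ T hT4
  have hT8 : (8 : ℝ) ≤ T := by exact_mod_cast n1
  have hTpos : (0 : ℝ) < T := by linarith
  have hT1r : (1 : ℝ) ≤ T := by linarith
  obtain ⟨v, hv⟩ : ∃ v, v = Vp (fun n => TP.eval n) W b z t := ⟨_, rfl⟩
  rw [← hv] at hV0 hV1 hA1
  -- the small sieving limit
  obtain ⟨z', hz'⟩ : ∃ z' : ℕ, z' = ⌊(T : ℝ) ^ ε'⌋₊ := ⟨_, rfl⟩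
  rw [← hz'] at n4 n5
  have hz'1 : (z' : ℝ) ≤ (T : ℝ) ^ ε' := by
    rw [hz']
    exact Nat.floor_le (by positivity)
  have hzz : z' ≤ z := by
    have h1 : (z' : ℝ) ≤ z := by linarith
    exact_mod_cast h1
  have hlogz : Real.log z ≤ max 1 (2 * u / ε') * Real.log z' := by
    have hz0 : (0 : ℝ) < z := by
      have : 0 < z := by omega
      exact_mod_cast this
    have hN1 : (1 : ℝ) ≤ (NT u T : ℝ) := by
      by_contra hcon
      push Not at hcon
      have h1 : NT u T = 0 := by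
        have h2 : NT u T < 1 := by exact_mod_cast hcon
        omega
      rw [h1] at n8
      simp at n8
      linarith
    have h1 : Real.log z ≤ u * Real.log T := by
      have h2 : Real.log z ≤ Real.log (NT u T) := by
        apply Real.log_le_log hz0
        refine hz1.le.trans ?_
        calc (NT u T : ℝ) ^ ε₁ ≤ (NT u T : ℝ) ^ (1 : ℝ) :=
              Real.rpow_le_rpow_of_exponent_le hN1 (by linarith)
          _ = NT u T := Real.rpow_one _
      exact h2.trans n9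
    have h2 : ε' / 2 * Real.log T ≤ Real.log z' := by
      rw [← Real.log_rpow hTpos]
      exact Real.log_le_log (by positivity) n4
    have h3 : 2 * u / ε' * (ε' / 2 * Real.log T) = u * Real.log T := by
      field_simp
    have hlT : 0 ≤ Real.log T := Real.log_nonneg hT1r
    have h4 : 0 ≤ Real.log z' := le_trans (by positivity) h2
    calc Real.log z ≤ u * Real.log T := h1
      _ = 2 * u / ε' * (ε' / 2 * Real.log T) := h3.symm
      _ ≤ 2 * u / ε' * Real.log z' := mul_le_mul_of_nonneg_left h2 (by positivity)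
      _ ≤ _ := mul_le_mul_of_nonneg_right (le_max_right _ _) h4
  obtain ⟨v', hv'⟩ : ∃ v', v' = Vp (fun n => TP.eval n) W b z' t := ⟨_, rfl⟩
  have hvv : c₂ * v' ≤ v := by
    rw [hv, hv']
    exact hcmp _ hF W b z' z t (fun p hp hpk => hWp p hp (by omega)) n5 hzz hlogz
  have hv'0 : 0 < v' := by
    rw [hv']
    exact Vp_pos hF W b z' t (fun p hp hpk => hWp p hp (by omega))
  have hvv2 : v' ≤ v / c₂ := by
    rw [le_div_iff₀ hc₂]
    linarith
  have hTu : (1 : ℝ) ≤ (T : ℝ) ^ (u - 1) := Real.one_le_rpow hT1r (by linarith)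
  have hTuu : (T : ℝ) ^ u = T * (T : ℝ) ^ (u - 1) := by
    conv_rhs => rw [← Real.rpow_one (T : ℝ), ← Real.rpow_mul hTpos.le, one_mul]
    rw [← Real.rpow_add hTpos]
    congr 1
    ring
  have hlK : 0 ≤ Real.log (NT u T) ^ K := by positivity
  have hm1 : 8 * (D + 1) / κ ≤ (T : ℝ) ^ (u - 1) * v := by
    have h1 : 8 * ((D : ℝ) + 1) / κ * 1 ≤ 8 * ((D : ℝ) + 1) / κ * (Real.log (NT u T) ^ K * v) :=
      mul_le_mul_of_nonneg_left hV1 (by positivity)
    have h2 := mul_le_mul_of_nonneg_right n6 hV0.le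
    linarith
  have hm2 : ((2 : ℝ) ^ 2 ^ J) ^ E ≤ (T : ℝ) ^ (u - 1) * v := by
    have h0 : ((2 : ℝ) ^ 2 ^ J) ^ E ≤ ((T : ℝ) ^ (2 * ε')) ^ E :=
      pow_le_pow_left₀ (by positivity) hJ2 E
    have h1 : ((T : ℝ) ^ (2 * ε')) ^ E * 1 ≤ ((T : ℝ) ^ (2 * ε')) ^ E * (Real.log (NT u T) ^ K * v) :=
      mul_le_mul_of_nonneg_left hV1 (by positivity)
    have h2 := mul_le_mul_of_nonneg_right n7 hV0.le
    linarith
  -- the elements inside the intervals
  obtain ⟨A', hA'⟩ : ∃ A', A' = A.filter (fun x => ((x + D : ℕ) : ℝ) < ((idx u x : ℕ) + 1 : ℝ) ^ u) :=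
    ⟨_, rfl⟩
  have hbd : ∀ x ∈ A, NT u T < x ∧ x ≤ 2 * NT u T := by
    intro x hx
    obtain ⟨g1, g2, -⟩ := (hA2 x hx).1
    exact ⟨g1, by omega⟩
  have hA'c : κ / 8 * ((T : ℝ) ^ u * v) ≤ A'.card := by
    have h1 : (A.filter (fun x => ¬ ((x + D : ℕ) : ℝ) < ((idx u x : ℕ) + 1 : ℝ) ^ u)).card ≤
        (D + 1) * T := by
      apply exceptional hu
      intro x hx
      rw [mem_filter] at hx
      obtain ⟨g1, g2⟩ := hbd x hx.1
      exact ⟨by omega, (hT3 x g1 g2).1, hx.2⟩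
    have h2 : A'.card + (A.filter (fun x => ¬ ((x + D : ℕ) : ℝ) < ((idx u x : ℕ) + 1 : ℝ) ^ u)).card =
        A.card := by
      rw [hA']
      exact card_filter_add_card_filter_not _
    have h3 : (A.card : ℝ) ≤ A'.card + ((D + 1 : ℕ) : ℝ) * T := by
      have : A.card ≤ A'.card + (D + 1) * T := by omega
      exact_mod_cast this
    have h4 : κ * ((T : ℝ) ^ u / 4 * v) ≤ A.card := by
      refine le_trans ?_ hA1
      apply mul_le_mul_of_nonneg_left _ hκ.le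
      exact mul_le_mul_of_nonneg_right hT2.1 hV0.le
    have h5 : ((D + 1 : ℕ) : ℝ) * T ≤ κ / 8 * ((T : ℝ) ^ u * v) := by
      rw [div_le_iff₀ hκ] at hm1
      rw [hTuu]
      push_cast
      nlinarith
    linarith
  -- the upper bound
  have hfib : ∀ n, ((A'.filter (fun x => idx u x = n)).card : ℝ) ≤ C₃ * ((T : ℝ) ^ (u - 1) * v) := by
    intro n
    rcases (A'.filter (fun x => idx u x = n)).eq_empty_or_nonempty with h0 | ⟨x₀, hx₀⟩
    · rw [h0, card_empty]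
      push_cast
      positivity
    have hn : n < T ∧ T ≤ 8 * n := by
      rw [mem_filter] at hx₀
      obtain ⟨h1, h2⟩ := hx₀
      rw [hA', mem_filter] at h1
      obtain ⟨g1, g2⟩ := hbd x₀ h1.1
      have := hT3 x₀ g1 g2
      rwa [h2] at this
    have hn0 : (0 : ℝ) ≤ n := Nat.cast_nonneg n
    have hn1 : (1 : ℝ) ≤ n := by
      have : 1 ≤ n := by omega
      exact_mod_cast this
    have hWn : W ≤ ⌊(n : ℝ) ^ u⌋₊ := by
      apply Nat.le_floor
      have h1 : W ≤ n := by omega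
      calc (W : ℝ) ≤ n := by exact_mod_cast h1
        _ = (n : ℝ) ^ (1 : ℝ) := (Real.rpow_one _).symm
        _ ≤ _ := Real.rpow_le_rpow_of_exponent_le hn1 hu.le
    have h1 := hup g (2 ^ k) W hW0 (fun p hp hpk => hWp p hp (by omega)) (fun n => TP.eval n) hF t b J z'
      ⌊(n : ℝ) ^ u⌋₊ (HT u T) hbW hWn (by
        have : (z' : ℝ) ≤ ((2 ^ 2 ^ J : ℕ) : ℝ) := by
          push_cast
          exact hz'1.trans hJ1
        exact_mod_cast this) (by rw [← hv']; exact hv'0.le) (A'.filter (fun x => idx u x = n)) (by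
      intro x hx
      rw [mem_filter, hA', mem_filter] at hx
      obtain ⟨⟨hxA, hx1⟩, hx2⟩ := hx
      obtain ⟨hpat, hmod⟩ := hA2 x hxA
      obtain ⟨g1, g2⟩ := hbd x hxA
      obtain ⟨g3, g4⟩ := idx_spec hu (show 1 ≤ x by omega)
      rw [hx2] at g3 g4 hx1
      refine ⟨?_, hmod, ?_⟩
      · rw [mem_Ioc]
        have e1 := Nat.floor_le (show 0 ≤ (n : ℝ) ^ u by positivity)
        have e2 := Nat.lt_floor_add_one ((n : ℝ) ^ u)
        have e3 := len hu hn.1
        have e4 := Nat.le_ceil (u * (T : ℝ) ^ (u - 1))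
        constructor
        · have : ((⌊(n : ℝ) ^ u⌋₊ : ℕ) : ℝ) < x := by linarith
          exact_mod_cast this
        · have : (x : ℝ) < ((⌊(n : ℝ) ^ u⌋₊ + HT u T : ℕ) : ℝ) := by
            unfold HT
            push_cast
            linarith
          have h3 : x < ⌊(n : ℝ) ^ u⌋₊ + HT u T := by exact_mod_cast this
          exact h3.le
      · intro p hp hpz i hd
        have h2 := hpat.2.2.1 i p hp (by
          have := hd
          rw [ht] at this
          exact this)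
        have h3 : (p : ℝ) ≤ z' := by exact_mod_cast hpz
        linarith)
    rw [← hv', ← hE] at h1
    refine h1.trans ?_
    have h2 : ((HT u T / W + 3 : ℕ) : ℝ) ≤ (u + 5) * (T : ℝ) ^ (u - 1) := by
      have h3 : HT u T / W ≤ HT u T := Nat.div_le_self _ _
      have h4 : ((HT u T / W + 3 : ℕ) : ℝ) ≤ ((HT u T + 3 : ℕ) : ℝ) := by
        exact_mod_cast Nat.add_le_add_right h3 3
      refine h4.trans ?_
      unfold HT
      have h5 := Nat.ceil_lt_add_one (show 0 ≤ u * (T : ℝ) ^ (u - 1) by positivity)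
      push_cast
      nlinarith
    have h3 : ((HT u T / W + 3 : ℕ) : ℝ) * v' ≤ (u + 5) * (T : ℝ) ^ (u - 1) * (v / c₂) :=
      mul_le_mul h2 hvv2 hv'0.le (by positivity)
    have h4 : 2 * ((u + 5) * (T : ℝ) ^ (u - 1) * (v / c₂)) + (T : ℝ) ^ (u - 1) * v =
        C₃ * ((T : ℝ) ^ (u - 1) * v) := by
      rw [hC₃]
      ring
    linarith
  have hpig := pigeon (A := A') (f := idx u) (T := T) (by omega) (by
    intro x hx
    rw [hA', mem_filter] at hx
    obtain ⟨g1, g2⟩ := hbd x hx.1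
    exact mem_range.2 (hT3 x g1 g2).1) (C₃ * ((T : ℝ) ^ (u - 1) * v)) (κ / 16 * ((T : ℝ) ^ u * v))
    (by positivity) (by positivity) hfib (by
      have : 2 * (κ / 16 * ((T : ℝ) ^ u * v)) = κ / 8 * ((T : ℝ) ^ u * v) := by ring
      rw [this]
      exact hA'c)
  refine ⟨Hs, v, hHs, hV0, hV1, ?_, (range T).filter (fun n => κ / 16 * ((T : ℝ) ^ u * v) / T ≤
    ((A'.filter (fun x => idx u x = n)).card : ℝ)), filter_subset _ _, ?_, ?_⟩
  · have h1 : z' ≤ HT u T := by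
      have h2 : (z' : ℝ) ≤ (HT u T : ℕ) := by
        unfold HT
        have h3 := Nat.le_ceil (u * (T : ℝ) ^ (u - 1))
        have h4 : (T : ℝ) ^ ε' ≤ (T : ℝ) ^ (u - 1) :=
          Real.rpow_le_rpow_of_exponent_le hT1r (by linarith)
        push_cast
        nlinarith
      exact_mod_cast h2
    have h2 := PP_V TP g hF W b z' (HT u T) t h1
    rw [← hv'] at h2
    refine h2.trans (hvv2.trans ?_)
    exact div_le_div_of_nonneg_left hV0.le hc0 hc3
  · refine le_trans ?_ hpig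
    have h1 : κ / 16 * ((T : ℝ) ^ u * v) / (C₃ * ((T : ℝ) ^ (u - 1) * v)) = κ / (16 * C₃) * T := by
      rw [hTuu]
      have hTu0 : (T : ℝ) ^ (u - 1) ≠ 0 := by positivity
      field_simp
    rw [h1]
    exact mul_le_mul_of_nonneg_right hc2 hTpos.le
  · intro n hn
    rw [mem_filter] at hn
    have h1 : κ / 16 * ((T : ℝ) ^ u * v) / T = κ / 16 * ((T : ℝ) ^ (u - 1) * v) := by
      rw [hTuu]
      field_simp
    rw [h1] at hn
    have hcard : c * ((T : ℝ) ^ (u - 1) * v) ≤ ((A'.filter (fun x => idx u x = n)).card : ℝ) := by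
      refine le_trans ?_ hn.2
      exact mul_le_mul_of_nonneg_right hc1 (by positivity)
    have hne : (A'.filter (fun x => idx u x = n)).Nonempty := by
      rw [← card_pos]
      have : (0 : ℝ) < ((A'.filter (fun x => idx u x = n)).card : ℝ) := lt_of_lt_of_le (by positivity) hcard
      exact_mod_cast this
    refine ⟨?_, A'.filter (fun x => idx u x = n), hcard, ?_⟩
    · obtain ⟨x₀, hx₀⟩ := hne
      rw [mem_filter] at hx₀
      obtain ⟨h1, h2⟩ := hx₀
      rw [hA', mem_filter] at h1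
      obtain ⟨g1, g2⟩ := hbd x₀ h1.1
      have := (hT3 x₀ g1 g2).2
      rwa [h2] at this
    · intro x hx
      rw [mem_filter, hA', mem_filter] at hx
      obtain ⟨⟨hxA, hx1⟩, hx2⟩ := hx
      obtain ⟨hpat, hmod⟩ := hA2 x hxA
      obtain ⟨g1, g2⟩ := hbd x hxA
      obtain ⟨g3, g4⟩ := idx_spec hu (show 1 ≤ x by omega)
      rw [hx2] at g3 hx1
      exact ⟨hpat, hmod, g3, hx1⟩

end Pool.Agent.W5h31.CU
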