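import Pool.Agent.W5h31.CU.CU4
import Pool.Agent.W5h31.AE.AE7
import Pool.Agent.R498.MT.Fin1

/-!
Clusters from patterns, and narrow progressions of patterns between consecutive powers.
-/

set_option autoImplicit false
set_option linter.unusedSectionVars false

namespace Pool.Agent.W5h31.CU

open Finset Filter Polynomial
open Pool.Agent.R498.MT Pool.Agent.R498.MP
open Pool.Agent.Y677.RSZ (rt Sys rhoT per_mod ev_log V eng_all)
open Pool.Agent.TH423.SH (PS PIj)

/-- the primes `q` such that `q + 2` has no prime factor smaller than `y` -/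
def Tw (y : ℝ) : Set ℕ := {q : ℕ | q.Prime ∧ ∀ r : ℕ, r.Prime → r ∣ q + 2 → y ≤ r}

/-- `q 0, …, q m` are consecutive elements of `Tw (n ^ (1 / R))`, at distance at most `C`, between
`n ^ u` and `(n + 1) ^ u`, in the class `a` modulo `Q`, the `q j + 2` have at most `R` prime factors, and
for all primes `p` from `q 0` to `q m` one of `p + 2`, `p - 2` has no prime factor below
`n ^ (1 / R)`. -/
def Cluster (u : ℝ) (Q a m R C n : ℕ) (q : ℕ → ℕ) : Prop :=
  (n : ℝ) ^ u < q 0 ∧ ((q m + 2 : ℕ) : ℝ) < ((n : ℝ) + 1) ^ u ∧ q m ≤ q 0 + C ∧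
  (∀ j ≤ m, q j ∈ Tw ((n : ℝ) ^ (1 / (R : ℝ))) ∧ (q j + 2).primeFactorsList.length ≤ R ∧
    q j ≡ a [MOD Q]) ∧
  (∀ j < m, q j < q (j + 1) ∧ ∀ x ∈ Tw ((n : ℝ) ^ (1 / (R : ℝ))), q j < x → q (j + 1) ≤ x) ∧
  ∀ p : ℕ, p.Prime → q 0 ≤ p → p ≤ q m → p ∈ Tw ((n : ℝ) ^ (1 / (R : ℝ))) ∨
    ∀ r : ℕ, r.Prime → r ∣ p - 2 → (n : ℝ) ^ (1 / (R : ℝ)) ≤ r

/-- the first elements of a finite set -/
theorem enum (J : Finset ℕ) (m : ℕ) (hm : m < J.card) : ∃ s : ℕ → ℕ, (∀ j ≤ m, s j ∈ J) ∧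
    ∀ j < m, s j < s (j + 1) ∧ ∀ i ∈ J, s j < i → i < s (j + 1) → False := by
  obtain ⟨c, hc⟩ : ∃ c, J.card = c := ⟨_, rfl⟩
  rw [hc] at hm
  obtain ⟨e, he⟩ : ∃ e : Fin c ↪o ℕ, e = J.orderEmbOfFin hc := ⟨_, rfl⟩
  have heJ : ∀ i, e i ∈ J := fun i => by rw [he]; exact J.orderEmbOfFin_mem hc i
  have hsurj : ∀ i ∈ J, ∃ f, e f = i := by
    intro i hi
    have h1 : i ∈ Set.range (J.orderEmbOfFin hc) := by
      rw [Finset.range_orderEmbOfFin]; exact hi
    obtain ⟨f, hf⟩ := h1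
    exact ⟨f, by rw [he]; exact hf⟩
  obtain ⟨E, hE⟩ : ∃ E : ℕ → ℕ, E = fun j => if hj : j < c then e ⟨j, hj⟩ else 0 := ⟨_, rfl⟩
  have hEv : ∀ j (hj : j < c), E j = e ⟨j, hj⟩ := fun j hj => by rw [hE]; simp [hj]
  refine ⟨E, fun j hj => by rw [hEv j (by omega)]; exact heJ _, fun j hj => ⟨?_, ?_⟩⟩
  · rw [hEv j (by omega), hEv (j + 1) (by omega)]
    exact e.strictMono (by simp)
  · intro i hi h1 h2
    obtain ⟨f, rfl⟩ := hsurj i hi
    rw [hEv j (by omega)] at h1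
    rw [hEv (j + 1) (by omega)] at h2
    have h3 := e.lt_iff_lt.1 h1
    have h4 := e.lt_iff_lt.1 h2
    rw [Fin.lt_def] at h3 h4
    simp only at h3 h4
    omega

/-- the cluster of a pattern -/
theorem cluster_of (u : ℝ) (W k b Q a m R N n x : ℕ) (hW : 2 ≤ W) (h3W : 3 ∣ W) (hQW : Q ∣ W)
    (hba : b ≡ a [MOD Q]) (hb3 : ¬ ((3 : ℕ) : ℤ) ∣ TP.eval (b : ℤ)) (ε₁ : ℝ)
    (hε : 0 < ε₁) (hR : 2 / ε₁ ≤ R) (Hs : Finset (Fin (2 ^ k)))
    (s : ℕ → ℕ) (hs : ∀ j ≤ m, s j ∈ Hs.image Fin.val)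
    (hs2 : ∀ j < m, s j < s (j + 1) ∧ ∀ i ∈ Hs.image Fin.val, s j < i → i < s (j + 1) → False)
    (hN : 3 ≤ N) (hnN : (n : ℝ) ^ (1 / (R : ℝ)) ≤ (N : ℝ) ^ ε₁) (hn3 : 3 < (n : ℝ) ^ (1 / (R : ℝ)))
    (hx : Pat W k ε₁ Hs N x) (hxb : x ≡ b [MOD W]) (hx1 : (n : ℝ) ^ u < x)
    (hx2 : ((x + (W * 2 ^ k + 2) : ℕ) : ℝ) < ((n : ℝ) + 1) ^ u) :
    Cluster u Q a m R (W * 2 ^ k) n (fun j => x + W * s j) := by
  obtain ⟨hp1, hp2, hp3, hp4⟩ := hx
  have hW3 : 3 ≤ W := Nat.le_of_dvd (by omega) h3W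
  have hlt : ∀ j ≤ m, s j < 2 ^ k := fun j hj => by
    have h1 := hs j hj
    rw [mem_image] at h1
    obtain ⟨i, -, hi⟩ := h1
    rw [← hi]
    exact i.isLt
  have hWs : ∀ j ≤ m, W * s j ≤ W * 2 ^ k := fun j hj => Nat.mul_le_mul_left _ (hlt j hj).le
  have hmono : ∀ j ≤ m, s j ≤ s m := by
    have hstep : ∀ i j, i ≤ j → j ≤ m → s i ≤ s j := by
      intro i j hij
      induction j, hij using Nat.le_induction with
      | base => intro _; exact le_rfl
      | succ j hij ih =>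
        intro hj
        exact (ih (by omega)).trans (hs2 j (by omega)).1.le
    intro j hj
    exact hstep j m hj le_rfl
  have hN1 : (1 : ℝ) < N := by
    have : (3 : ℝ) ≤ N := by exact_mod_cast hN
    linarith
  have hN0 : (0 : ℝ) < N := by linarith
  have hR0 : (0 : ℝ) < R := lt_of_lt_of_le (by positivity) hR
  have hεR : 2 ≤ ε₁ * R := by
    rw [div_le_iff₀ hε] at hR
    linarith
  have hrough2 : ∀ i : Fin (2 ^ k), ∀ r : ℕ, r.Prime → r ∣ x + W * (i : ℕ) + 2 → (N : ℝ) ^ ε₁ ≤ r := by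
    intro i r hr hd
    apply hp3 i r hr
    rw [TP_eval]
    apply Dvd.dvd.mul_left
    have : ((x + W * (i : ℕ) : ℕ) : ℤ) + 2 = ((x + W * (i : ℕ) + 2 : ℕ) : ℤ) := by push_cast; ring
    rw [this]
    exact_mod_cast hd
  refine ⟨?_, ?_, ?_, ?_, ?_, ?_⟩
  · refine hx1.trans_le ?_
    exact_mod_cast (by omega : x ≤ x + W * s 0)
  · refine lt_of_le_of_lt ?_ hx2
    have := hWs m le_rfl
    exact_mod_cast (by omega : x + W * s m + 2 ≤ x + (W * 2 ^ k + 2))
  · have := hWs m le_rfl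
    show x + W * s m ≤ x + W * s 0 + W * 2 ^ k
    omega
  · intro j hj
    have h1 := hs j hj
    rw [mem_image] at h1
    obtain ⟨i, hi, he⟩ := h1
    have hrough : ∀ r : ℕ, r.Prime → r ∣ x + W * s j + 2 → (N : ℝ) ^ ε₁ ≤ r := by
      intro r hr hd
      apply hp3 i r hr
      rw [TP_eval, he]
      apply Dvd.dvd.mul_left
      have : ((x + W * s j : ℕ) : ℤ) + 2 = ((x + W * s j + 2 : ℕ) : ℤ) := by push_cast; ring
      rw [this]
      exact_mod_cast hd
    refine ⟨⟨?_, ?_⟩, ?_, ?_⟩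
    · show (x + W * s j).Prime
      rw [hp4 (W * s j) (hWs j hj)]
      · exact ⟨i, hi, by rw [he]⟩
      · intro i' hi'
        have h2 : W ∣ 2 := (Nat.dvd_add_right (Dvd.intro (i' : ℕ) rfl)).1 (hi' ▸ Dvd.intro (s j) rfl)
        have := Nat.le_of_dvd (by norm_num) h2
        omega
    · intro r hr hd
      exact hnN.trans (hrough r hr hd)
    · apply Pool.Agent.W5h31.AE.few_factors _ R ((N : ℝ) ^ ε₁) (Real.one_lt_rpow hN1 hε) (by omega)
        (fun r hr hd => hrough r hr hd)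
      have h2 := hWs j hj
      have h3 : x + W * s j + 2 ≤ 2 * N := by omega
      have h4 : ((x + W * s j + 2 : ℕ) : ℝ) ≤ 2 * N := by exact_mod_cast h3
      have h5 : (N : ℝ) ^ (2 : ℕ) ≤ ((N : ℝ) ^ ε₁) ^ R := by
        rw [← Real.rpow_natCast ((N : ℝ) ^ ε₁) R, ← Real.rpow_mul hN0.le, ← Real.rpow_natCast]
        apply Real.rpow_le_rpow_of_exponent_le hN1.le
        exact_mod_cast hεR
      have h6 : 1 < (N : ℝ) ^ ε₁ := Real.one_lt_rpow hN1 hε
      have h7 : (3 : ℝ) ≤ N := by exact_mod_cast hN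
      have h8 : (2 : ℝ) * N ≤ (N : ℝ) ^ (2 : ℕ) := by nlinarith
      have h9 : 0 < ((N : ℝ) ^ ε₁) ^ R := by positivity
      rw [pow_succ]
      nlinarith
    · show x + W * s j ≡ a [MOD Q]
      have h1 : x + W * s j ≡ b + 0 [MOD Q] := by
        apply Nat.ModEq.add (hxb.of_dvd hQW)
        exact (Nat.modEq_zero_iff_dvd).2 (hQW.mul_right _)
      rw [add_zero] at h1
      exact h1.trans hba
  · intro j hj
    obtain ⟨h1, h2⟩ := hs2 j hj
    constructor
    · show x + W * s j < x + W * s (j + 1)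
      have := Nat.mul_lt_mul_of_pos_left h1 (show 0 < W by omega)
      omega
    · intro y hy hyj
      show x + W * s (j + 1) ≤ y
      have hyj' : x + W * s j < y := hyj
      by_contra hcon
      push Not at hcon
      obtain ⟨v, rfl⟩ : ∃ v, y = x + v := ⟨y - x, by omega⟩
      have hv : v ≤ W * 2 ^ k := by
        have := hWs (j + 1) hj
        omega
      by_cases hvi : ∀ i : Fin (2 ^ k), v ≠ W * (i : ℕ) + 2
      · obtain ⟨i, hi, hvw⟩ := (hp4 v hv hvi).1 hy.1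
        rw [hvw] at hyj' hcon
        exact h2 i (mem_image_of_mem _ hi)
          (lt_of_mul_lt_mul_left (a := W) (by omega) (Nat.zero_le _))
          (lt_of_mul_lt_mul_left (a := W) (by omega) (Nat.zero_le _))
      · push Not at hvi
        obtain ⟨i, hi⟩ := hvi
        have h3 : 3 ∣ x + v + 2 := by
          have h4 : x ≡ b [MOD 3] := hxb.of_dvd h3W
          have h5 : b % 3 = 2 := by
            have h6 : b % 3 < 3 := Nat.mod_lt _ (by norm_num)
            rw [TP_eval] at hb3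
            by_contra hne
            apply hb3
            have h7 : 3 ∣ b * (b + 2) := by
              rcases (show b % 3 = 0 ∨ b % 3 = 1 by omega) with h | h
              · exact (Nat.dvd_of_mod_eq_zero h).mul_right _
              · apply Dvd.dvd.mul_left
                omega
            have h8 : ((b : ℤ)) * ((b : ℤ) + 2) = ((b * (b + 2) : ℕ) : ℤ) := by push_cast; ring
            rw [h8]
            exact_mod_cast h7
          have h6 : x % 3 = 2 := by
            have : x % 3 = b % 3 := h4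
            rw [this, h5]
          obtain ⟨w, hw⟩ := h3W
          have h7 : x + v + 2 = x + 4 + 3 * (w * (i : ℕ)) := by
            rw [hi, hw]
            ring
          rw [h7]
          omega
        have h4 := hy.2 3 Nat.prime_three h3
        push_cast at h4
        linarith
  · intro p hp hp0 hpm
    have hp0' : x + W * s 0 ≤ p := hp0
    have hpm' : p ≤ x + W * s m := hpm
    obtain ⟨v, rfl⟩ : ∃ v, p = x + v := ⟨p - x, by omega⟩
    have hv : v ≤ W * 2 ^ k := by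
      have := hWs m le_rfl
      omega
    by_cases hvi : ∀ i : Fin (2 ^ k), v ≠ W * (i : ℕ) + 2
    · left
      obtain ⟨i, hi, hvw⟩ := (hp4 v hv hvi).1 hp
      refine ⟨hp, fun r hr hd => hnN.trans (hrough2 i r hr ?_)⟩
      rw [hvw] at hd
      exact hd
    · right
      push Not at hvi
      obtain ⟨i, hi⟩ := hvi
      intro r hr hd
      refine hnN.trans (hp3 i r hr ?_)
      rw [TP_eval]
      apply Dvd.dvd.mul_right
      have e : x + v - 2 = x + W * (i : ℕ) := by omega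
      rw [e] at hd
      exact_mod_cast hd

end Pool.Agent.W5h31.CU
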