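import Pool.Agent.W5h31.CU.CU5

/-!
Narrow progressions of patterns between consecutive powers.
-/

set_option autoImplicit false
set_option linter.unusedSectionVars false

namespace Pool.Agent.W5h31.CU

open Finset Filter Polynomial
open Pool.Agent.R498.MT Pool.Agent.R498.MP
open Pool.Agent.Y677.RSZ (rt Sys rhoT per_mod ev_log V eng_all)
open Pool.Agent.TH423.SH (PS PIj)

/-- the numerical conditions -/
theorem numsA (u ε₁ : ℝ) (n₀ KP H₀ : ℕ) (hu : 1 < u) (hε₁ : 0 < ε₁) :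
    ∀ᶠ T : ℕ in atTop, 64 ≤ T ∧ H₀ ≤ HT u T ∧ 8 * n₀ + 8 ≤ T ∧ (KP : ℝ) ≤ (T : ℝ) ^ u ∧
      (T : ℝ) ^ (u - 1) ≤ (HT u T : ℝ) ∧ (HT u T : ℝ) ≤ (u + 2) * (T : ℝ) ^ (u - 1) ∧
      (HT u T : ℝ) ≤ (T : ℝ) ^ u ∧ (3 : ℝ) ≤ (T : ℝ) ^ u ∧
      (HT u T : ℝ) ^ (ε₁ / 2) < (NT u T : ℝ) ^ ε₁ ∧ 16 * u ≤ Real.log T ∧
      (T : ℝ) ^ (ε₁ / 2) ≤ (NT u T : ℝ) ^ ε₁ := by
  have hu0 : 0 < u := by linarith
  have hcast := tendsto_natCast_atTop_atTop (R := ℝ)
  filter_upwards [NT_bd hu, eventually_ge_atTop 64, eventually_ge_atTop (8 * n₀ + 8),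
    hcast.eventually ((tendsto_rpow_atTop hu0).eventually_ge_atTop (KP : ℝ)),
    hcast.eventually ((tendsto_rpow_atTop (show 0 < u - 1 by linarith)).eventually_ge_atTop (H₀ : ℝ)),
    hcast.eventually_ge_atTop (u + 2),
    (Real.tendsto_log_atTop.comp hcast).eventually_ge_atTop (16 * u)]
    with T hT hT64 hTn hKP hH₀ hTu hlog
  obtain ⟨hT1, hT2⟩ := hT
  simp only [Function.comp_apply] at hlog
  have hT64r : (64 : ℝ) ≤ T := by exact_mod_cast hT64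
  have hT0 : (0 : ℝ) < T := by linarith
  have hT1r : (1 : ℝ) ≤ T := by linarith
  have hTu1 : (1 : ℝ) ≤ (T : ℝ) ^ (u - 1) := Real.one_le_rpow hT1r (by linarith)
  have hTuu : (T : ℝ) ^ u = T * (T : ℝ) ^ (u - 1) := by
    conv_rhs => rw [← Real.rpow_one (T : ℝ), ← Real.rpow_mul hT0.le, one_mul]
    rw [← Real.rpow_add hT0]
    congr 1
    ring
  have hTge : (T : ℝ) ≤ (T : ℝ) ^ u := by rw [hTuu]; nlinarith
  have h1 : (T : ℝ) ^ (u - 1) ≤ (HT u T : ℝ) := by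
    unfold HT
    have h3 := Nat.le_ceil (u * (T : ℝ) ^ (u - 1))
    push_cast
    nlinarith
  have h2 : (HT u T : ℝ) ≤ (u + 2) * (T : ℝ) ^ (u - 1) := by
    unfold HT
    have h3 := Nat.ceil_lt_add_one (show 0 ≤ u * (T : ℝ) ^ (u - 1) by positivity)
    push_cast
    nlinarith
  have h3 : (HT u T : ℝ) ≤ (T : ℝ) ^ u := by
    refine h2.trans ?_
    rw [hTuu]
    exact mul_le_mul_of_nonneg_right hTu (by positivity)
  have hquart : (T : ℝ) ^ (u / 2) < (T : ℝ) ^ u / 4 := by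
    have e : (T : ℝ) ^ u = (T : ℝ) ^ (u / 2) * (T : ℝ) ^ (u / 2) := by
      rw [← Real.rpow_add hT0]
      congr 1
      ring
    have h5 : (8 : ℝ) ≤ (T : ℝ) ^ (u / 2) := by
      calc (8 : ℝ) = (64 : ℝ) ^ (1 / 2 : ℝ) := by
            rw [show (64 : ℝ) = 8 ^ (2 : ℝ) by norm_num, ← Real.rpow_mul (by norm_num)]
            norm_num
        _ ≤ (T : ℝ) ^ (1 / 2 : ℝ) := Real.rpow_le_rpow (by norm_num) hT64r (by norm_num)
        _ ≤ _ := Real.rpow_le_rpow_of_exponent_le hT1r (by linarith)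
    rw [e]
    nlinarith
  have hNq : ((T : ℝ) ^ (u / 2)) ^ ε₁ < (NT u T : ℝ) ^ ε₁ :=
    Real.rpow_lt_rpow (by positivity) (hquart.trans_le hT1) hε₁
  have e1 : ((T : ℝ) ^ (u / 2)) ^ ε₁ = ((T : ℝ) ^ u) ^ (ε₁ / 2) := by
    rw [← Real.rpow_mul hT0.le, ← Real.rpow_mul hT0.le]
    congr 1
    ring
  refine ⟨hT64, ?_, hTn, hKP, h1, h2, h3, by linarith, ?_, hlog, ?_⟩
  · exact_mod_cast hH₀.trans h1
  · calc (HT u T : ℝ) ^ (ε₁ / 2) ≤ ((T : ℝ) ^ u) ^ (ε₁ / 2) :=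
          Real.rpow_le_rpow (Nat.cast_nonneg _) h3 (by positivity)
      _ = ((T : ℝ) ^ (u / 2)) ^ ε₁ := e1.symm
      _ < _ := hNq
  · calc (T : ℝ) ^ (ε₁ / 2) ≤ ((T : ℝ) ^ u) ^ (ε₁ / 2) :=
          Real.rpow_le_rpow hT0.le hTge (by positivity)
      _ = ((T : ℝ) ^ (u / 2)) ^ ε₁ := e1.symm
      _ ≤ _ := hNq.le

/-- the logarithms -/
theorem log_bd {n T : ℕ} (hT : 64 ≤ T) (hn : T ≤ 8 * n) : Real.log T ≤ 2 * Real.log n := by
  have hTr : (64 : ℝ) ≤ T := by exact_mod_cast hT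
  have hnr : (T : ℝ) ≤ 8 * n := by exact_mod_cast hn
  have hn0 : (0 : ℝ) < n := by linarith
  have h1 : (T : ℝ) ≤ (n : ℝ) ^ 2 := by nlinarith
  calc Real.log T ≤ Real.log ((n : ℝ) ^ 2) := Real.log_le_log (by linarith) h1
    _ = 2 * Real.log n := by rw [Real.log_pow]; norm_num

theorem apB (u : ℝ) (hu : 1 < u) (g : ℕ) (hF : Sys g (fun n => TP.eval n))
    (k W b : ℕ) (hW2 : 2 ≤ W) (hbW : b < W) (hWp : ∀ p : ℕ, p.Prime → p ≤ g * 2 ^ k + 1 → p ∣ W)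
    (hb : ∀ p : ℕ, p.Prime → p ∣ W → ¬ (p : ℤ) ∣ TP.eval (b : ℤ)) (ε₁ c : ℝ) (hε : 0 < ε₁)
    (hc : 0 < c) (l : ℕ) :
    ∃ B : ℕ, ∀ᶠ T : ℕ in atTop, ∀ (Hs : Finset (Fin (2 ^ k))) (v : ℝ) (n : ℕ) (A : Finset ℕ), 0 < v →
        n < T → T ≤ 8 * n →
        V (fun n => (PP TP W (fun i : Fin (2 ^ k) => (i : ℕ))).eval n) 1 (HT u T) ≤ v / c →
        c * ((T : ℝ) ^ (u - 1) * v) ≤ A.card →
        (∀ x ∈ A, Pat W k ε₁ Hs (NT u T) x ∧ x ≡ b [MOD W] ∧ (n : ℝ) ^ u < x ∧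
          ((x + (W * 2 ^ k + 2) : ℕ) : ℝ) < ((n : ℝ) + 1) ^ u) →
        ∃ x d : ℕ, 1 ≤ d ∧ (d : ℝ) ≤ Real.log n ^ B ∧ ∀ j < l, x + j * d ∈ A := by
  have hu0 : 0 < u := by linarith
  have hW0 : 0 < W := by omega
  obtain ⟨t, ht⟩ : ∃ t : Fin (2 ^ k) → ℕ, t = fun i : Fin (2 ^ k) => (i : ℕ) := ⟨_, rfl⟩
  obtain ⟨g', hS⟩ := PP_sys TP TP_ne g hF W b t hWp hb
  obtain ⟨KP, DP, hKD⟩ := Pool.Agent.W123.RU.Poly.eval_bound (PP TP W t)
  obtain ⟨n₀, hn₀⟩ := Pool.Agent.Y677.RSZ.ne_zero_ev (PP TP W t) (PP_ne TP TP_ne W t)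
  obtain ⟨e, he⟩ : ∃ e : ℕ, u * (2 * DP + 1) / (u - 1) ≤ e := exists_nat_ge _
  obtain ⟨B, H₀, hB⟩ := eng_all (l + 2) (g' + e) (ε₁ / 2) (c ^ 2 / (u + 2)) (by omega)
    (by positivity) (by positivity)
  refine ⟨2 * B, ?_⟩
  filter_upwards [numsA u ε₁ n₀ KP H₀ hu hε] with T hT5 Hs v n A hv hnT hTn hV hA1 hA3
  obtain ⟨n1, n2, n3, n4, n5, n6, n7, n8, n9, n10, n11⟩ := hT5
  rw [← ht] at hV
  have hT64r : (64 : ℝ) ≤ T := by exact_mod_cast n1
  have hT0 : (0 : ℝ) < T := by linarith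
  have hT1r : (1 : ℝ) ≤ T := by linarith
  have hTu1 : (1 : ℝ) ≤ (T : ℝ) ^ (u - 1) := Real.one_le_rpow hT1r (by linarith)
  have hn8 : 8 ≤ n := by omega
  have hnr : (8 : ℝ) ≤ n := by exact_mod_cast hn8
  obtain ⟨Y, hY⟩ : ∃ Y : ℕ, Y = ⌊(n : ℝ) ^ u⌋₊ := ⟨_, rfl⟩
  have hYn : n ≤ Y := by
    rw [hY]
    apply Nat.le_floor
    calc (n : ℝ) = (n : ℝ) ^ (1 : ℝ) := (Real.rpow_one _).symm
      _ ≤ _ := Real.rpow_le_rpow_of_exponent_le (by linarith) hu.le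
  have hYT : (Y : ℝ) ≤ (T : ℝ) ^ u := by
    rw [hY]
    refine (Nat.floor_le (by positivity)).trans ?_
    exact Real.rpow_le_rpow (Nat.cast_nonneg _) (by exact_mod_cast hnT.le) hu0.le
  have hH1 : (1 : ℝ) ≤ (HT u T : ℝ) := hTu1.trans n5
  obtain ⟨a, d, hd1, hd2, had⟩ := hB (fun n => (PP TP W t).eval n) Y (HT u T)
    A (Pool.Agent.Y677.RSZ.Sys.mono hS (by omega)) n2
    (by
      intro x hx
      rw [mem_Ioc] at hx
      refine ⟨hn₀ x (by omega), ?_⟩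
      have h1 := hKD (x : ℤ)
      have h2 : |((x : ℤ) : ℝ)| = (x : ℝ) := by
        rw [Int.cast_natCast, abs_of_nonneg (Nat.cast_nonneg x)]
      rw [h2] at h1
      have h3 : 1 + (x : ℝ) ≤ (T : ℝ) ^ (2 * u) := by
        have h4 : (x : ℝ) ≤ Y + HT u T := by exact_mod_cast hx.2
        have h5 : (T : ℝ) ^ (2 * u) = (T : ℝ) ^ u * (T : ℝ) ^ u := by
          rw [← Real.rpow_add hT0]
          congr 1
          ring
        rw [h5]
        nlinarith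
      have h4 : (KP : ℝ) * (1 + (x : ℝ)) ^ DP ≤ (T : ℝ) ^ u * ((T : ℝ) ^ (2 * u)) ^ DP :=
        mul_le_mul n4 (pow_le_pow_left₀ (by positivity) h3 _) (by positivity) (by positivity)
      have h5 : (T : ℝ) ^ u * ((T : ℝ) ^ (2 * u)) ^ DP = (T : ℝ) ^ (u * (2 * DP + 1)) := by
        rw [← Real.rpow_natCast, ← Real.rpow_mul hT0.le, ← Real.rpow_add hT0]
        congr 1
        ring
      have h6 : (T : ℝ) ^ (u * (2 * DP + 1)) ≤ ((T : ℝ) ^ (u - 1)) ^ e := by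
        rw [← Real.rpow_natCast, ← Real.rpow_mul hT0.le]
        apply Real.rpow_le_rpow_of_exponent_le hT1r
        rw [div_le_iff₀ (by linarith)] at he
        linarith
      have h7 : ((T : ℝ) ^ (u - 1)) ^ e ≤ (HT u T : ℝ) ^ (g' + e) := by
        calc ((T : ℝ) ^ (u - 1)) ^ e ≤ (HT u T : ℝ) ^ e := pow_le_pow_left₀ (by positivity) n5 _
          _ ≤ _ := pow_le_pow_right₀ hH1 (by omega)
      have h8 : |(((PP TP W t).eval (x : ℤ) : ℤ) : ℝ)| ≤ (HT u T : ℝ) ^ (g' + e) := by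
        refine h1.trans (h4.trans ?_)
        rw [h5]
        exact h6.trans h7
      exact_mod_cast h8)
    (by
      intro x hx
      obtain ⟨-, -, g3, g4⟩ := hA3 x hx
      rw [mem_Ioc, hY]
      have e1 := Nat.floor_le (show 0 ≤ (n : ℝ) ^ u by positivity)
      have e2 := Nat.lt_floor_add_one ((n : ℝ) ^ u)
      have e3 := len hu hnT
      have e4 := Nat.le_ceil (u * (T : ℝ) ^ (u - 1))
      push_cast at g4
      have e5 : (0 : ℝ) ≤ (W : ℝ) * 2 ^ k := by positivity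
      constructor
      · have : ((⌊(n : ℝ) ^ u⌋₊ : ℕ) : ℝ) < x := by linarith
        exact_mod_cast this
      · have : (x : ℝ) < ((⌊(n : ℝ) ^ u⌋₊ + HT u T : ℕ) : ℝ) := by
          unfold HT
          push_cast
          linarith
        have h3 : x < ⌊(n : ℝ) ^ u⌋₊ + HT u T := by exact_mod_cast this
        exact h3.le)
    (by
      intro x hx p hp hpH hdvd
      obtain ⟨hpat, hmod, -, -⟩ := hA3 x hx
      have hxe : W * (x / W) + b = x := by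
        have h1 : x % W = b := by
          have h2 : x % W = b % W := hmod
          rw [h2, Nat.mod_eq_of_lt hbW]
        have h3 := Nat.div_add_mod x W
        omega
      have hdvd' : (p : ℤ) ∣ (PP TP W t).eval ((W * (x / W) + b : ℕ) : ℤ) := by
        rw [hxe]; exact hdvd
      obtain ⟨i, hi⟩ := (PP_dvd TP W b t p hp (x / W)).1 hdvd'
      have e : W * (x / W + t i) + b = x + W * (i : ℕ) := by
        rw [ht]
        have : W * (x / W + (i : ℕ)) + b = W * (x / W) + b + W * (i : ℕ) := by ring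
        rw [this, hxe]
      rw [e] at hi
      have h1 := hpat.2.2.1 i p hp hi
      linarith)
    (by
      refine le_trans ?_ hA1
      have h1 : (HT u T : ℝ) * V (fun n => (PP TP W t).eval n) 1 (HT u T) ≤
          ((u + 2) * (T : ℝ) ^ (u - 1)) * (v / c) := by
        apply mul_le_mul n6 hV _ (by positivity)
        exact prod_nonneg fun p _ => Pool.Agent.Y677.RSZ.fac_nonneg p
      calc c ^ 2 / (u + 2) * ((HT u T : ℝ) * V (fun n => (PP TP W t).eval n) 1 (HT u T)) ≤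
          c ^ 2 / (u + 2) * (((u + 2) * (T : ℝ) ^ (u - 1)) * (v / c)) :=
            mul_le_mul_of_nonneg_left h1 (by positivity)
        _ = c * ((T : ℝ) ^ (u - 1) * v) := by
            field_simp)
  refine ⟨a, d, hd1, ?_, fun j hj => had j (by omega)⟩
  refine hd2.trans ?_
  have hlT : 0 < Real.log T := Real.log_pos (by linarith)
  have h1 : Real.log (HT u T) ≤ u * Real.log T := by
    rw [← Real.log_rpow hT0]
    exact Real.log_le_log (by linarith) n7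
  have h2 := log_bd n1 hTn
  have h3 : u * Real.log T ≤ Real.log n ^ 2 := by nlinarith
  rw [pow_mul]
  apply pow_le_pow_left₀ (Real.log_nonneg hH1)
  linarith

end Pool.Agent.W5h31.CU
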