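import Pool.Agent.W5h31.CU.CU6

/-!
Clusters of primes `q` with almost prime `q + 2` between a positive proportion of consecutive powers.
-/

set_option autoImplicit false
set_option linter.unusedSectionVars false

namespace Pool.Agent.W5h31.CU

open Finset Filter Polynomial
open Pool.Agent.Y677.RSZ (Sys)

theorem le_last {u : ℝ} {Q a m R C n : ℕ} {q : ℕ → ℕ} (h : Cluster u Q a m R C n q) : q 0 ≤ q m := by
  have hstep : ∀ j, j ≤ m → q 0 ≤ q j := by
    intro j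
    induction j with
    | zero => intro _; exact le_rfl
    | succ j ih =>
      intro hj
      exact (ih (by omega)).trans (h.2.2.2.2.1 j (by omega)).1.le
  exact hstep m le_rfl

theorem fin_cluster (u : ℝ) (Q a m R C n : ℕ) :
    {q₀ : ℕ | ∃ q : ℕ → ℕ, q 0 = q₀ ∧ Cluster u Q a m R C n q}.Finite := by
  apply (Set.finite_Iic ⌊((n : ℝ) + 1) ^ u⌋₊).subset
  rintro q₀ ⟨q, hq, hc⟩
  have h1 := le_last hc
  have h2 := hc.2.1
  rw [Set.mem_Iic]
  apply Nat.le_floor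
  have h3 : ((q₀ : ℕ) : ℝ) ≤ ((q m + 2 : ℕ) : ℝ) := by
    exact_mod_cast (by omega : q₀ ≤ q m + 2)
  linarith

theorem main (u : ℝ) (hu : 1 < u) (Q a m : ℕ) (hQ : Squarefree Q) (ha : (a * (a + 2)).Coprime Q) :
    ∃ (R C A : ℕ) (c : ℝ), 1 ≤ R ∧ 0 < c ∧ ∀ l : ℕ, ∃ B : ℕ, ∀ᶠ T : ℕ in atTop,
      c * T ≤ ({n : ℕ | n ≤ T ∧
        (n : ℝ) ^ (u - 1) / Real.log n ^ A ≤
          ({q₀ : ℕ | ∃ q : ℕ → ℕ, q 0 = q₀ ∧ Cluster u Q a m R C n q}.ncard : ℝ) ∧
        ∃ (q : ℕ → ℕ) (d : ℕ), 1 ≤ d ∧ (d : ℝ) ≤ Real.log n ^ B ∧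
          ∀ i < l, Cluster u Q a m R C n (fun j => q j + i * d)}.ncard : ℝ) := by
  classical
  have hu0 : 0 < u := by linarith
  obtain ⟨g, hg1, hF⟩ := TP_sys
  obtain ⟨k, hk⟩ : ∃ k : ℕ, 3 * ((m : ℝ) + 1) * 1474560 ≤ 1 / 4 * (1 / 8) * k := by
    obtain ⟨k, hk⟩ := exists_nat_ge (3 * ((m : ℝ) + 1) * 1474560 * 32)
    exact ⟨k, by linarith⟩
  obtain ⟨W, b, ε₁, c, hW2, h3W, hQW, hba, hbW, hWp, hb, hε, hc, hstep⟩ :=
    stepA u hu g hg1 hF k m m hk le_rfl Q a hQ (by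
      intro p hp hpQ hd
      rw [TP_eval] at hd
      have h1 : p ∣ a * (a + 2) := by
        have : ((a : ℤ)) * ((a : ℤ) + 2) = ((a * (a + 2) : ℕ) : ℤ) := by push_cast; ring
        rw [this] at hd
        exact_mod_cast hd
      have h2 := Nat.dvd_gcd h1 hpQ
      rw [ha] at h2
      exact hp.one_lt.ne' (Nat.dvd_one.1 h2))
  have hb3 := hb 3 Nat.prime_three h3W
  obtain ⟨K, hK⟩ : ∃ K : ℕ, K = 2 * (g * 2 ^ k) + 1 := ⟨_, rfl⟩
  rw [← hK] at hstep
  obtain ⟨R, hR⟩ : ∃ R : ℕ, 2 / ε₁ ≤ R := exists_nat_ge _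
  have hR0 : (0 : ℝ) < R := lt_of_lt_of_le (by positivity) hR
  have hR1 : 1 ≤ R := by exact_mod_cast hR0
  refine ⟨R, W * 2 ^ k, K + 1, c, hR1, hc, fun l => ?_⟩
  obtain ⟨B, hB⟩ := apB u hu g hF k W b hW2 hbW hWp hb ε₁ c hε hc l
  refine ⟨B, ?_⟩
  filter_upwards [hstep, hB, numsA u ε₁ (3 ^ R) 0 0 hu hε, NT_bd hu, (NT_tendsto hu).eventually_ge_atTop 3,
    (Real.tendsto_log_atTop.comp (tendsto_natCast_atTop_atTop (R := ℝ))).eventually_ge_atTop
      (2 * ((2 * u) ^ K / c))]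
    with T hT1 hT2 hT3 hT4 hT5 hT6
  simp only [Function.comp_apply] at hT6
  obtain ⟨Hs, v, hHs, hv, hv1, hV, G, hG1, hG2, hG3⟩ := hT1
  obtain ⟨n1, n2, n3, n4, n5, n6, n7, n8, n9, n10, n11⟩ := hT3
  have hT64r : (64 : ℝ) ≤ T := by exact_mod_cast n1
  have hT0 : (0 : ℝ) < T := by linarith
  have hT1r : (1 : ℝ) ≤ T := by linarith
  obtain ⟨s, hs1, hs2⟩ := enum (Hs.image Fin.val) m (by
    rw [card_image_of_injective _ Fin.val_injective]
    exact hHs)
  have hfin : {n : ℕ | n ≤ T ∧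
        (n : ℝ) ^ (u - 1) / Real.log n ^ (K + 1) ≤
          ({q₀ : ℕ | ∃ q : ℕ → ℕ, q 0 = q₀ ∧ Cluster u Q a m R (W * 2 ^ k) n q}.ncard : ℝ) ∧
        ∃ (q : ℕ → ℕ) (d : ℕ), 1 ≤ d ∧ (d : ℝ) ≤ Real.log n ^ B ∧
          ∀ i < l, Cluster u Q a m R (W * 2 ^ k) n (fun j => q j + i * d)}.Finite :=
    (Set.finite_Iic T).subset fun n hn => hn.1
  have hsub : (G : Set ℕ) ⊆ {n : ℕ | n ≤ T ∧
        (n : ℝ) ^ (u - 1) / Real.log n ^ (K + 1) ≤
          ({q₀ : ℕ | ∃ q : ℕ → ℕ, q 0 = q₀ ∧ Cluster u Q a m R (W * 2 ^ k) n q}.ncard : ℝ) ∧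
        ∃ (q : ℕ → ℕ) (d : ℕ), 1 ≤ d ∧ (d : ℝ) ≤ Real.log n ^ B ∧
          ∀ i < l, Cluster u Q a m R (W * 2 ^ k) n (fun j => q j + i * d)} := by
    intro n hn
    rw [mem_coe] at hn
    have hnT : n < T := mem_range.1 (hG1 hn)
    obtain ⟨hTn, A, hA1, hA2⟩ := hG3 n hn
    have hn8 : 8 ≤ n := by omega
    have hnr : (8 : ℝ) ≤ n := by exact_mod_cast hn8
    have hn0 : (0 : ℝ) < n := by linarith
    have hnN : (n : ℝ) ^ (1 / (R : ℝ)) ≤ (NT u T : ℝ) ^ ε₁ := by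
      refine le_trans ?_ n11
      calc (n : ℝ) ^ (1 / (R : ℝ)) ≤ (T : ℝ) ^ (1 / (R : ℝ)) :=
            Real.rpow_le_rpow hn0.le (by exact_mod_cast hnT.le) (by positivity)
        _ ≤ _ := by
            apply Real.rpow_le_rpow_of_exponent_le hT1r
            rw [div_le_iff₀ hR0]
            rw [div_le_iff₀ hε] at hR
            linarith
    have hn3 : 3 < (n : ℝ) ^ (1 / (R : ℝ)) := by
      have h1 : 3 ^ R < n := by omega
      have h2 : ((3 : ℝ)) ^ R < n := by exact_mod_cast h1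
      calc (3 : ℝ) = ((3 : ℝ) ^ R) ^ (1 / (R : ℝ)) := by
            rw [← Real.rpow_natCast, ← Real.rpow_mul (by norm_num), mul_one_div, div_self hR0.ne',
              Real.rpow_one]
        _ < _ := Real.rpow_lt_rpow (by positivity) h2 (by positivity)
    have hcl : ∀ x ∈ A, Cluster u Q a m R (W * 2 ^ k) n (fun j => x + W * s j) := by
      intro x hx
      obtain ⟨g1, g2, g3, g4⟩ := hA2 x hx
      exact cluster_of u W k b Q a m R (NT u T) n x hW2 h3W hQW hba hb3 ε₁ hε hR Hs s hs1 hs2 hT5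
        hnN hn3 g1 g2 g3 g4
    refine ⟨hnT.le, ?_, ?_⟩
    · have hinj : Function.Injective (fun x : ℕ => x + W * s 0) := fun x y hxy => by
        simp only at hxy
        omega
      have hsub2 : (A.image (fun x => x + W * s 0) : Set ℕ) ⊆
          {q₀ : ℕ | ∃ q : ℕ → ℕ, q 0 = q₀ ∧ Cluster u Q a m R (W * 2 ^ k) n q} := by
        intro q₀ hq₀
        rw [mem_coe, mem_image] at hq₀
        obtain ⟨x, hx, rfl⟩ := hq₀
        exact ⟨fun j => x + W * s j, rfl, hcl x hx⟩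
      have hle := Set.ncard_le_ncard hsub2 (fin_cluster u Q a m R (W * 2 ^ k) n)
      rw [Set.ncard_coe_finset, card_image_of_injective _ hinj] at hle
      have hle' : (A.card : ℝ) ≤
          ({q₀ : ℕ | ∃ q : ℕ → ℕ, q 0 = q₀ ∧ Cluster u Q a m R (W * 2 ^ k) n q}.ncard : ℝ) := by
        exact_mod_cast hle
      refine le_trans ?_ (hA1.trans hle')
      have hln := log_bd n1 hTn
      have hlT : 0 < Real.log T := Real.log_pos (by linarith)
      have hln0 : 0 < Real.log n := by linarith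
      have hNpos : (3 : ℝ) ≤ (NT u T : ℝ) := by exact_mod_cast hT5
      have hlN : Real.log (NT u T) ≤ 2 * u * Real.log n := by
        have h1 : Real.log (NT u T) ≤ u * Real.log T := by
          rw [← Real.log_rpow hT0]
          apply Real.log_le_log (by linarith)
          linarith [hT4.2]
        nlinarith
      have hlN0 : 0 ≤ Real.log (NT u T) := Real.log_nonneg (by linarith)
      have h2 : Real.log (NT u T) ^ K ≤ (2 * u) ^ K * Real.log n ^ K := by
        rw [← mul_pow]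
        exact pow_le_pow_left₀ hlN0 hlN K
      have h3 : (2 * u) ^ K ≤ c * Real.log n := by
        have h4 : (2 * u) ^ K / c ≤ Real.log n := by linarith
        rw [div_le_iff₀ hc] at h4
        linarith
      have h4 : 1 ≤ c * Real.log n ^ (K + 1) * v := by
        calc (1 : ℝ) ≤ Real.log (NT u T) ^ K * v := hv1
          _ ≤ ((2 * u) ^ K * Real.log n ^ K) * v := mul_le_mul_of_nonneg_right h2 hv.le
          _ ≤ ((c * Real.log n) * Real.log n ^ K) * v := by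
              apply mul_le_mul_of_nonneg_right _ hv.le
              exact mul_le_mul_of_nonneg_right h3 (by positivity)
          _ = _ := by ring
      have h5 : (n : ℝ) ^ (u - 1) ≤ (T : ℝ) ^ (u - 1) :=
        Real.rpow_le_rpow hn0.le (by exact_mod_cast hnT.le) (by linarith)
      rw [div_le_iff₀ (by positivity)]
      calc (n : ℝ) ^ (u - 1) ≤ (T : ℝ) ^ (u - 1) * 1 := by rw [mul_one]; exact h5
        _ ≤ (T : ℝ) ^ (u - 1) * (c * Real.log n ^ (K + 1) * v) :=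
            mul_le_mul_of_nonneg_left h4 (by positivity)
        _ = _ := by ring
    · obtain ⟨x, d, hd1, hd2, hxd⟩ := hT2 Hs v n A hv hnT hTn hV hA1 hA2
      refine ⟨fun j => x + W * s j, d, hd1, hd2, fun i hi => ?_⟩
      have h1 := hcl _ (hxd i hi)
      have h2 : (fun j => x + W * s j + i * d) = (fun j => x + i * d + W * s j) := by
        funext j
        ring
      rw [h2]
      exact h1
  have h1 := Set.ncard_le_ncard hsub hfin
  rw [Set.ncard_coe_finset] at h1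
  refine hG2.trans ?_
  exact_mod_cast h1

end Pool.Agent.W5h31.CU
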